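import Pool.Agent.L0h4.T4.Vl

/-!
# The central values of the `L`-series of `y² = x³ - D³`: the theorem
-/

set_option autoImplicit false
set_option linter.unusedSectionVars false

open Filter
open scoped Topology PeriodPair

namespace Pool.Agent.L0h4.T4

open H667R3 Pool.Agent.W192.HK Pool.Agent.TH936.CM
open Pool.Agent.TH936.PU hiding pf
open Pool.Agent.W192.CM (nu)
open Pool.Agent.Y696 Pool.Agent.Y715.T.Lat Pool.Agent.Y715.Dist
open Pool.Agent.Y715.T.LF (nu_eq)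
open Pool.Agent.Y715.T.Three (lam lam_ne' lam_sq)
open Pool.Agent.L0h86.F3 hiding Bv_eq
open Pool.Agent.Y698.SG (lg lg_one lg_neg_one lg_mul sgn_mul sgn_prod ix)

variable {L : PeriodPair} {Ω : ℂ} {Γ : Type*} [LinearOrderedCommGroupWithZero Γ]
  {v : Valuation ℂ Γ}

/-- multiplication by a unit -/
lemma Bw_rot {F : ℂ → ℂ} {ε : eis → ℂ} (hL : IsLat L eis Ω) (hF : FN L Ω F ε) {n : eis}
    (hn : n ≠ 0) [Fintype (eis ⧸ sp n)] {u : eis}
    (hu : IsUnit u) {φ : eis → ℂ} (hφ : Pe n φ) (hu1 : ∀ x, φ (u * x) = φ x) :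
    ∑ x : eis ⧸ sp n, φ x.out * F (u * (Ω * x.out / (n : ℂ))) = Bw F Ω n φ := by
  rw [Bw_eq]
  rw [sum_rep (fun y : eis ⧸ sp n => u * y.out) (unit_bij hu)
    (fun r : eis => φ r * F (Ω * r / (n : ℂ))) (fun x y h => Bw_term hL hF hn hφ h)]
  refine Finset.sum_congr rfl fun y _ => ?_
  rw [hu1]
  congr 2
  push_cast
  ring

section

variable {ψ : Ideal eis → ℂ} (hψe : ψ = fun J => psi6 J * c4I J) (hpsi : S_PSI)
  (hψ : HC 1 (sp (4 * la : eis)) ψ)

include hψe hpsi hψ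

/-- the weighted sums of the function `HH` -/
theorem HH_Bw (hL : IsLat L eis Ω) [Fintype (eis ⧸ (sp (4 * la) : Ideal eis))] {c : eis}
    (hc : c ≠ 0) (hfc : IsCoprime (4 * la) c) [Fintype (eis ⧸ sp c)] {χ : eis → ℂ}
    (hχ : Xo c χ) (hu : ∀ u : eis, IsUnit u → ∀ x, χ (u * x) = χ x) :
    ∑ x : eis ⧸ sp c, χ x.out * HH L Ω (4 * la) (ee ψ) (Ω * x.out / c) =
      6 * Bw (F1v Ω) Ω c χ := by
  have he := ee_eo lfp qr hψ
  set Ef : ℂ := ∑ y : eis ⧸ (sp (4 * la) : Ideal eis), ee ψ y.out *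
    Ev Ω (Ω * y.out / ((4 * la : eis) : ℂ)) with hEf
  have h0 : Tendsto (fun δ : ℝ => ∑ y : eis ⧸ (sp (4 * la) : Ideal eis), ee ψ y.out *
      EE eis Ω δ (Ω * y.out / ((4 * la : eis) : ℂ))) (𝓝[>] 0) (𝓝 Ef) :=
    tendsto_finsetSum _ fun y _ => (ev_lim hL (Tor.of hL f12_ne _)).const_mul _
  have h1 : ∀ x : eis, Ph L Ω (4 * la) (ee ψ) Ef c x =
      ∑ y : eis ⧸ (sp (4 * la) : Ideal eis), ee ψ y.out *
        Ev Ω (Ω * y.out / ((4 * la : eis) : ℂ) + Ω * x / c) := by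
    intro x
    refine tendsto_nhds_unique (lim_Ph hL f12_ne hc hfc he h0 x) ?_
    exact tendsto_finsetSum _ fun y _ => (ev_lim hL ((Tor.of hL f12_ne _).add hL
      (Tor.of hL hc x))).const_mul _
  have h2 : ∑ x : eis ⧸ sp c, χ x.out * HH L Ω (4 * la) (ee ψ) (Ω * x.out / c) =
      ∑ x : eis ⧸ sp c, χ x.out * Ph L Ω (4 * la) (ee ψ) Ef c x.out := by
    have h3 : ∀ x : eis ⧸ sp c, χ x.out * Ph L Ω (4 * la) (ee ψ) Ef c x.out =
        χ x.out * HH L Ω (4 * la) (ee ψ) (Ω * x.out / c) + χ x.out * Ef := by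
      intro x
      by_cases hx : x.out ∈ sp c
      · rw [hχ.zero _ hx]
        ring
      · rw [Ph_of_notMem hx]
        ring
    rw [Finset.sum_congr rfl fun x _ => h3 x, Finset.sum_add_distrib, ← Finset.sum_mul, hχ.sum,
      zero_mul, add_zero]
  rw [h2]
  have h4 : ∀ x : eis ⧸ sp c, χ x.out * Ph L Ω (4 * la) (ee ψ) Ef c x.out =
      χ x.out * F1v Ω ((1 : eis) * (Ω * x.out / c)) +
      χ x.out * F1v Ω ((-1 : eis) * (Ω * x.out / c)) +
      χ x.out * F1v Ω ((omr ^ 2 : eis) * (Ω * x.out / c)) +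
      χ x.out * F1v Ω ((-omr ^ 2 : eis) * (Ω * x.out / c)) +
      χ x.out * F1v Ω ((omr : eis) * (Ω * x.out / c)) +
      χ x.out * F1v Ω ((-omr : eis) * (Ω * x.out / c)) := by
    intro x
    rw [h1, sum_ee4 hψe hpsi hψ hL (Tor.of hL hc _)]
    ring
  rw [Finset.sum_congr rfl fun x _ => h4 x]
  simp only [Finset.sum_add_distrib]
  have hφ : Pe c χ := hχ.per
  have r : ∀ u : eis, IsUnit u → ∑ x : eis ⧸ sp c, χ x.out * F1v Ω (u * (Ω * x.out / c)) =
      Bw (F1v Ω) Ω c χ := fun u h => Bw_rot hL (F1_FN hL) hc h hφ (hu u h)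
  rw [r 1 isUnit_one, r (-1) isUnit_one.neg, r (omr ^ 2) (omr_unit.pow 2),
    r (-omr ^ 2) (omr_unit.pow 2).neg, r omr omr_unit, r (-omr) omr_unit.neg]
  ring

end

lemma gk_cj {ι : Type} [DecidableEq ι] (π : ι → eis) (S : Finset ι) :
    F4.cj (g4 π S) = gk (fun i => bt (π i)) (fun i j => F4.of (mm π i j)) S := by
  have hof : ∀ x : ZMod 2, F4.cj (F4.of x) = F4.of x := by decide
  unfold g4 gk
  rw [RingHom.map_det]
  congr 1
  refine Matrix.ext fun i j => ?_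
  rw [RingHom.mapMatrix_apply, Matrix.map_apply, Matrix.of_apply, Matrix.of_apply]
  split_ifs with h
  · rw [map_add, F4.cj_cj, map_sum]
    beta_reduce
    rw [Finset.sum_congr rfl fun k _ => hof (mm π i k)]
  · exact hof _

lemma v_ep (a : eis) : v (ep a) = 1 := by
  rcases ep_val a with ⟨-, h⟩ | ⟨-, h⟩
  · rw [h, map_one]
  · rw [h, Valuation.map_neg, map_one]

set_option maxHeartbeats 1600000 in
/-- **the values of the `L`-series** -/
theorem valN_of (hps : S_PS4) (hev : S_EV4) (hpsi : S_PSI) (hhcd : S_HCD) (hgen : S_GEN) :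
    S_VALN := by
  intro Q P ϖ D hdt hD hne
  obtain ⟨hFX, hprod, -, -, -, hsy⟩ := hgen Q P ϖ D hdt hD
  set S := ix Q P with hS
  set π := pf Q ϖ with hπ
  set c : eis := ∏ i ∈ S, π i with hc
  have hcD : sp c = sp (D : eis) := by
    rcases hprod with ⟨h, -⟩ | ⟨h, -⟩
    · rw [h]
    · rw [h]
      exact Ideal.span_singleton_eq_span_singleton.2 (Associated.refl _).neg_left
  have hc0 : c ≠ 0 := prod_ne hFX
  have hc1 : N1 c := prod_N1 hFX
  have hco : IsCoprime (2 : eis) c := prod_odd hFX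
  have hfc : IsCoprime (4 * la) c := by
    have e4 : (4 * la : eis) = 2 * (2 * la) := by ring
    rw [e4]
    exact hco.mul_left (hco.mul_left hc1.cop_la)
  set ψ : Ideal eis → ℂ := fun J => psi6 J * c4I J with hψe
  have hψ : HC 1 (sp (4 * la : eis)) ψ := hps
  have hχ : HC 0 (sp c) (XD D) := by
    rw [hcD]
    exact hhcd Q P D hdt.q hdt.p hD hne
  obtain ⟨F, g1, g2, g3⟩ := val lbasic lfp lcnt ldec lafe lprod qr hψ hχ
    ((Ideal.isCoprime_span_singleton_iff _ _).2 hfc)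
  refine ⟨F, g1, g2, ?_⟩
  intro Γ _ v t2 L Ω hC
  have hL := hC.lat
  have hct : sp c ≠ ⊤ := by
    rw [Ne, Ideal.span_singleton_eq_top]
    intro hu
    obtain ⟨q, hq⟩ := hne
    have hi : (q, false) ∈ S := by
      rw [hS]
      unfold ix
      rw [Finset.mem_union]
      left
      rw [Finset.mem_product]
      exact ⟨hq, Finset.mem_singleton_self _⟩
    exact (hFX.pd _ hi).pr.not_isUnit (isUnit_of_dvd_unit (Finset.dvd_prod_of_mem π hi) hu)
  have f1 := fin_quot f12_ne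
  have f2 := fin_quot hc0
  let _ : Fintype (eis ⧸ (sp (4 * la) : Ideal eis)) := Fintype.ofFinite _
  let _ : Fintype (eis ⧸ sp c) := Fintype.ofFinite _
  have g4' := g3 hct L Ω hL
  have hXo := xb_xo lfp qr hχ hct
  have hunit : ∀ u : eis, IsUnit u → ∀ x, xb (XD D) (u * x) = xb (XD D) x := by
    intro u hu x
    have e : sp (u * x) = sp x := Ideal.span_singleton_mul_left_unit hu x
    unfold xb
    rw [e]
  rw [HH_Bw hψe hpsi hψ hL hc0 hfc hXo hunit, nu_eq] at g4'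
  have hfun : xb (XD D) = fun m => ∏ i ∈ S, sy (π i) m := by
    funext m
    rw [hsy m]
    unfold xb
    exact XD_conj D _
  set c0 : ℂ := 4 * ℘[L] (Ω / 2) ^ 2 with hc00
  have he0 : ℘[L] (Ω / 2) ≠ 0 := e_ne hC
  have hc0' : c0 ≠ 0 := mul_ne_zero (by norm_num) (pow_ne_zero 2 he0)
  have hind := indW (v := v) hL (F1_FN hL) hc0' hFX (fun i => F4.cj (bt (π i)))
    (fun i => bt (π i)) (fun i hi κ hκ => R4_ep (hFX.pd i hi) hκ) (by
      intro S' hS'
      have hF' := hFX.mono hS'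
      have h5 := Bw_hc (v := v) (F := F1v Ω) (Ω := Ω) (c0 := c0) t2 hF' (fun x =>
        hev v t2 L Ω hC _ (prod_ne hF') (prod_odd hF') (prod_N1 hF') x)
      have h6 : ∏ i ∈ S', (bt (π i) + F4.cj (bt (π i))) =
          ∏ i ∈ S', (F4.cj (bt (π i)) + bt (π i)) :=
        Finset.prod_congr rfl fun i _ => add_comm _ _
      rw [← h6]
      exact h5) S subset_rfl
  rw [← gk_cj] at hind
  rw [hfun] at g4'
  refine ⟨_, hind, ?_⟩
  set B := Bw (F1v Ω) Ω c (fun m => ∏ i ∈ S, sy (π i) m) with hB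
  have hΩ := hL.ne
  have hee : ee ψ c = ep c := by
    have h5 := ee_n1 hψe hpsi hc1 isUnit_one
    rw [one_mul] at h5
    rw [h5]
    push_cast
    rw [one_mul]
  have hx6 : v (∏ i ∈ S, sy (π i) (4 * la)) = 1 := by
    rw [hsy]
    rcases XD_val D (sp (4 * la)) with h | h | h
    · exfalso
      rw [hχ.zero] at h
      rcases h with h | h
      · rw [Ideal.span_singleton_eq_bot] at h
        exact f12_ne h
      · exact h ((Ideal.isCoprime_span_singleton_iff _ _).2 hfc)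
    · rw [h, map_one]
    · rw [h, Valuation.map_neg, map_one]
  rw [hee] at g4'
  have hf0 : ((4 * la : eis) : ℂ) ≠ 0 := coe_ne f12_ne
  have hc0'' : (c : ℂ) ≠ 0 := coe_ne hc0
  have h20 : (2 : ℂ) ^ S.card ≠ 0 := pow_ne_zero _ two_ne_zero
  have e1 : (starRingEnd ℂ) (F 1) / Ω = (((4 * la : eis) : ℂ) * c)⁻¹ *
      (ep c * ∏ i ∈ S, sy (π i) (4 * la)) * (2 ^ S.card * c0) *
        (B / (2 ^ S.card * c0)) := by
    have e2 : (starRingEnd ℂ) (F 1) = (6 : ℂ)⁻¹ * (((6 : ℕ) : ℂ) * (starRingEnd ℂ) (F 1)) := by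
      push_cast
      ring
    rw [e2, g4']
    field_simp
  have v4 : v 4 = v 2 ^ 2 := by
    rw [← map_pow]
    congr 1
    norm_num
  have vf : v ((4 * la : eis) : ℂ) = v 2 ^ 2 := by
    push_cast
    rw [map_mul, v_la t2, mul_one, four_coe, v4]
  have hv2 : v 2 ≠ 0 := by
    rw [Ne, map_eq_zero]
    norm_num
  rw [e1, hc00]
  simp only [map_mul, map_inv₀, vf, v_N1 t2 hc1, hx6, v_ep, v4, map_pow, mul_one]
  field_simp

end Pool.Agent.L0h4.T4
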