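import Pool.Agent.L0h4.T4.Vl
import Pool.Agent.L0h4.T3.Psi

/-!
# The Hecke character of conductor `4 √-3`
-/

set_option autoImplicit false
set_option linter.unusedSectionVars false

open Filter
open scoped Topology PeriodPair

namespace Pool.Agent.L0h4.T4

open H667R3 Pool.Agent.W192.HK Pool.Agent.TH936.CM
open Pool.Agent.TH936.PU hiding pf
open Pool.Agent.Y696 Pool.Agent.Y715.T.Lat
open Pool.Agent.L0h86.F3 hiding Bv_eq unit_mod6
open Pool.Agent.L0h4.T3 (exists_prim6 psi6_zero_iff psi6_prim t_PSI la_prime two_factor prim6_ne)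

lemma nat_card_mul (I J : Ideal eis) :
    Nat.card (eis ⧸ (I * J)) = Nat.card (eis ⧸ I) * Nat.card (eis ⧸ J) := by
  have h := (lbasic eis om qr).2.2.2.1 I J
  unfold nm at h
  exact_mod_cast h

lemma c4I_mul (I J : Ideal eis) : c4I (I * J) = c4I I * c4I J := by
  unfold c4I
  rw [nat_card_mul]
  push_cast
  rw [map_mul]
  push_cast
  ring

lemma cop_four {I : Ideal eis} : IsCoprime I (sp (4 * la : eis)) ↔ IsCoprime I (sp (2 * la : eis)) := by
  obtain ⟨x, rfl⟩ : ∃ x : eis, I = sp x :=
    ⟨_, (Submodule.IsPrincipal.span_singleton_generator I).symm⟩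
  rw [Ideal.isCoprime_span_singleton_iff, Ideal.isCoprime_span_singleton_iff]
  constructor
  · intro h
    rw [show (4 * la : eis) = 2 * (2 * la) by ring] at h
    exact h.of_mul_right_right
  · intro h
    have e4 : (4 * la : eis) = 2 * (2 * la) := by ring
    rw [e4]
    exact h.of_mul_right_left.mul_right h

lemma ep_ne (a : eis) : ep a ≠ 0 := by
  rcases ep_val a with ⟨-, h⟩ | ⟨-, h⟩ <;> rw [h] <;> norm_num

lemma n1_of {α : eis} (h : α - 1 ∈ (sp (2 * la) : Ideal eis)) : ∃ u : eis, α = 1 + 2 * la * u := by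
  rw [Ideal.mem_span_singleton'] at h
  obtain ⟨t, ht⟩ := h
  exact ⟨t, by linear_combination -ht⟩

lemma psi4_n1 (u : eis) : psi6 (sp (1 + 2 * la * u)) * c4I (sp (1 + 2 * la * u)) =
    ((1 + 2 * la * u : eis) : ℂ) * ep (1 + 2 * la * u) := by
  rw [c4I_n1, psi6_n1 t_PSI ⟨u, rfl⟩ (n1_ne u)]

/-- the divisors -/
lemma dvd_four_la {d : eis} (h : d ∣ 4 * la) (hn : ¬ (4 * la : eis) ∣ d) : d ∣ 2 * la ∨ d ∣ 4 := by
  obtain ⟨e, he⟩ := h
  have he0 : e ≠ 0 := by
    rintro rfl
    rw [mul_zero] at he
    exact f12_ne he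
  have heu : ¬ IsUnit e := by
    intro hu
    apply hn
    obtain ⟨w, hw⟩ := hu.exists_right_inv
    exact ⟨w, by rw [he, mul_assoc, hw, mul_one]⟩
  obtain ⟨i, hi, hie⟩ := WfDvdMonoid.exists_irreducible_factor heu he0
  have hip : Prime i := hi.prime
  have h1 : i ∣ 2 * (2 * la) := by
    have : (2 * (2 * la) : eis) = d * e := by rw [← he]; ring
    rw [this]
    exact Dvd.dvd.mul_left hie d
  have two : i ∣ 2 → d ∣ 2 * la := by
    rintro ⟨x, hx⟩
    have h3 : IsUnit x := (two_factor hx).resolve_left hi.not_isUnit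
    obtain ⟨w, hw⟩ := h3.exists_right_inv
    obtain ⟨y, hy⟩ := hie
    refine ⟨w * y, ?_⟩
    apply mul_left_cancel₀ two_ne
    have e2 : (2 : eis) * w = i := by rw [hx, mul_assoc, hw, mul_one]
    calc (2 : eis) * (2 * la) = d * e := by rw [← he]; ring
      _ = d * (i * y) := by rw [hy]
      _ = d * ((2 * w) * y) := by rw [e2]
      _ = 2 * (d * (w * y)) := by ring
  rcases hip.dvd_or_dvd h1 with h2 | h2
  · exact Or.inl (two h2)
  rcases hip.dvd_or_dvd h2 with h2 | h2
  · exact Or.inl (two h2)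
  · right
    obtain ⟨x, hx⟩ := h2
    have h3 : IsUnit x := (la_prime.irreducible.isUnit_or_isUnit hx).resolve_left hi.not_isUnit
    obtain ⟨w, hw⟩ := h3.exists_right_inv
    obtain ⟨y, hy⟩ := hie
    refine ⟨w * y, ?_⟩
    apply mul_left_cancel₀ la_ne
    have e2 : (la : eis) * w = i := by rw [hx, mul_assoc, hw, mul_one]
    calc (la : eis) * 4 = d * e := by rw [← he]; ring
      _ = d * (i * y) := by rw [hy]
      _ = d * ((la * w) * y) := by rw [e2]
      _ = la * (d * (w * y)) := by ring

/-- **the Hecke character** -/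
theorem t_PS4 : S_PS4 := by
  have hP := t_PSI
  refine ⟨?_, ?_, ?_, ?_, ?_⟩
  · rw [Ne, Ideal.span_singleton_eq_bot]
    exact f12_ne
  · intro I J
    rw [hP.mul, c4I_mul]
    ring
  · intro I
    rw [cop_four, ← hP.zero]
    constructor
    · intro h
      rcases mul_eq_zero.1 h with h1 | h1
      · exact h1
      · by_contra h2
        rw [psi6_zero_iff, not_not] at h2
        obtain ⟨α, rfl, hα⟩ := exists_prim6 h2
        obtain ⟨u, rfl⟩ := n1_of hα
        rw [c4I_n1] at h1
        exact ep_ne _ h1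
    · intro h
      rw [h, zero_mul]
  · intro α _ hα
    rw [Ideal.mem_span_singleton'] at hα
    obtain ⟨t, ht⟩ := hα
    have e : α = 1 + 2 * la * (2 * t) := by linear_combination -ht
    rw [pow_one, e, psi4_n1]
    have h1 : ep (1 + 2 * la * (2 * t)) = 1 := by
      unfold ep
      rw [bt_n1, map_mul]
      have h2 : rho (2 : eis) = 0 := by
        rw [map_ofNat]
        rfl
      rw [h2, zero_mul, if_pos (by decide)]
    rw [h1, mul_one]
  · intro q' hq'
    obtain ⟨d, rfl⟩ : ∃ d : eis, q' = sp d :=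
      ⟨_, (Submodule.IsPrincipal.span_singleton_generator q').symm⟩
    have h1 : d ∣ 4 * la := Ideal.span_singleton_le_span_singleton.1 hq'.le
    have h2 : ¬ (4 * la : eis) ∣ d := fun h => by
      have := Ideal.span_singleton_le_span_singleton.2 h
      exact absurd (le_antisymm hq'.le this) hq'.ne
    have key : ∀ α : eis, α ≠ 0 → d ∣ α - 1 → IsCoprime α (2 * la) →
        psi6 (sp α) * c4I (sp α) = -(α : ℂ) →
        ∃ α : eis, α ≠ 0 ∧ α - 1 ∈ (sp d : Ideal eis) ∧ IsCoprime (sp α) (sp (4 * la)) ∧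
          psi6 (sp α) * c4I (sp α) ≠ (α : ℂ) ^ 1 := by
      intro α h0 hd hc hval
      refine ⟨α, h0, Ideal.mem_span_singleton.2 hd, ?_, ?_⟩
      · rw [cop_four, Ideal.isCoprime_span_singleton_iff]
        exact hc
      · rw [hval, pow_one]
        intro h
        have h3 : (α : ℂ) = 0 := by linear_combination -h / 2
        exact coe_ne h0 h3
    rcases dvd_four_la h1 h2 with h | h
    · refine key (1 + 2 * la * omr) (n1_ne _) (h.trans ⟨omr, by ring⟩)
        ⟨1, -omr, by ring⟩ ?_
      rw [psi4_n1]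
      have h3 : ep (1 + 2 * la * omr) = -1 := by
        unfold ep
        rw [bt_n1, ← ez_omr, rho_ez]
        rw [if_neg]
        decide
      rw [h3]
      ring
    · have e5 : (5 : eis) = 1 + 4 * 1 := by norm_num
      have hla := la_sq
      have h5 : (-1 : eis) * (1 + 2 * la * la) = 5 := by rw [mul_assoc, hla]; norm_num
      refine key 5 ?_ (h.trans ⟨1, by rw [e5]; ring⟩) ⟨-1, -la, ?_⟩ ?_
      · intro h0
        have := congrArg (fun t : eis => (t : ℂ)) h0
        have e : ((5 : eis) : ℂ) = 5 := rfl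
        simp only [e] at this
        norm_num at this
      · have : (-la * (2 * la) : eis) = 6 := by
          linear_combination (-2) * hla
        rw [this]
        norm_num
      · have hu : IsUnit (-1 : eis) := isUnit_one.neg
        have e6 : sp (5 : eis) = sp (1 + 2 * la * la) := by
          rw [← h5]
          exact Ideal.span_singleton_mul_left_unit hu _
        rw [e6, psi4_n1]
        have h7 : ep (1 + 2 * la * la) = 1 := by
          unfold ep
          rw [bt_n1, rho_la, if_pos]
          decide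
        rw [h7, mul_one, ← h5]
        push_cast
        ring

end Pool.Agent.L0h4.T4
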