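import Pool.Agent.L0h4.T4.Loc
import Pool.Agent.L0h4.T4.Ps4

/-!
# The Hecke series is the L-series of `y² = x³ - D³`
-/

set_option autoImplicit false
set_option linter.unusedSectionVars false

namespace Pool.Agent.L0h4.T4

open IsDedekindDomain
open Pool.Agent.W192.HK Pool.Agent.Y696 Pool.Agent.Y715.T.Lat
open Pool.Agent.L0h86.F3 (psi6 XD)
open Pool.Agent.L0h86.F1 (AdmM)
open Pool.Agent.L0h4.T3 (bl bl_mem bl_hp eq_hp hp fI fI_bad b6 e6 chM split_prime inert_prime
  prime_of_norm norm_of_cj cj_norm_mem nm_spn b6_split b6_inert cpow_two prim6_unique psi6_prim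
  psi6_zero_iff not_cop_bot6 t_PSI mem_2la regroup XD_mul cj_cj)

/-- the function on the ideals -/
noncomputable def fN (D : ℕ) (s : ℂ) (J : Ideal eis) : ℂ :=
  psi6 J * c4I J * XD D J * (nm J : ℂ) ^ (-s)

lemma fN_bad {D : ℕ} (h : AdmM D) (s : ℂ) (P : HeightOneSpectrum eis)
    (hP : bl P = (2 : ℕ) ∨ bl P = (3 : ℕ) ∨ (bl P : ℕ) ∣ D) : fN D s P.asIdeal = 0 := by
  have h1 := fI_bad h s P hP
  unfold fI at h1
  unfold fN
  linear_combination c4I P.asIdeal * h1

/-- the local factors -/
theorem factorN {D : ℕ} (h : AdmM D) (s : ℂ) (p : Nat.Primes) :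
    HasProd (fun P : {P : HeightOneSpectrum eis // bl P = p} => (1 - fN D s P.1.asIdeal)⁻¹)
      ((1 - b6 p * (chN D (p : ℕ) * ((p : ℕ) : ℂ) ^ (-s)) +
      e6 p * (chN D (p : ℕ) * ((p : ℕ) : ℂ) ^ (-s)) ^ 2)⁻¹) := by
  classical
  by_cases hbad : (p : ℕ) = 2 ∨ (p : ℕ) = 3 ∨ (p : ℕ) ∣ D
  · have e1 : (1 - b6 p * (chN D (p : ℕ) * ((p : ℕ) : ℂ) ^ (-s)) +
        e6 p * (chN D (p : ℕ) * ((p : ℕ) : ℂ) ^ (-s)) ^ 2 : ℂ) = 1 := by
      rcases hbad with hb | hb | hb
      · unfold b6 e6
        rw [if_pos (Or.inl hb), if_pos (Or.inl hb)]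
        push_cast
        ring
      · unfold b6 e6
        rw [if_pos (Or.inr hb), if_pos (Or.inr hb)]
        push_cast
        ring
      · have : chN D (p : ℕ) = 0 := by
          unfold chN
          rw [mul_eq_zero]
          right
          unfold chM
          have hne : NeZero (p : ℕ) := ⟨p.2.ne_zero⟩
          rw [jacobiSym.eq_zero_iff_not_coprime]
          intro hc
          have h4 : (p : ℕ) ∣ Int.gcd (D : ℤ) ((p : ℕ) : ℤ) := by
            rw [Int.gcd_natCast_natCast]
            exact Nat.dvd_gcd hb dvd_rfl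
          rw [hc] at h4
          exact p.2.one_lt.ne' (Nat.dvd_one.1 h4)
        rw [this]
        push_cast
        ring
    rw [e1, inv_one]
    refine hasProd_one.congr_fun fun P => ?_
    have hz : fN D s P.1.asIdeal = 0 := fN_bad h s P.1 (by rw [P.2]; exact hbad)
    rw [hz, sub_zero, inv_one]
  · push Not at hbad
    obtain ⟨hp2, hp3, hpD⟩ := hbad
    have hodd : Odd (p : ℕ) := p.2.odd_of_ne_two hp2
    have hrec : jacobiSym ((p : ℕ) : ℤ) D = chM D p := by
      unfold chM
      exact (jacobiSym.quadratic_reciprocity_one_mod_four h.m4 hodd).symm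
    have hsq : chN D (p : ℕ) ^ 2 = 1 := chN_sq p.2 hp2 hpD
    have hm : (p : ℕ) % 3 = 1 ∨ (p : ℕ) % 3 = 2 := by
      have : (p : ℕ) % 3 ≠ 0 := fun h => hp3
        ((Nat.prime_dvd_prime_iff_eq Nat.prime_three p.2).1 (Nat.dvd_of_mod_eq_zero h)).symm
      omega
    have he : e6 p = ((p : ℕ) : ℤ) := by
      unfold e6
      rw [if_neg (by rintro (h | h) <;> contradiction)]
    rcases hm with hm | hm
    · -- split primes
      obtain ⟨α, hα, hα1⟩ := split_prime p.2 hm
      have hα' : cj α * cj (cj α) = ((p : ℕ) : eis) := by rw [cj_cj, mul_comm, hα]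
      have hα1' := cj_norm_mem hα1
      have hpr := prime_of_norm p.2 hα
      have hpr' := prime_of_norm p.2 hα'
      have hn := norm_of_cj hα
      have hn' := norm_of_cj hα'
      set P1 : {P : HeightOneSpectrum eis // bl P = p} :=
        ⟨hp α hpr, bl_hp hpr p (Dvd.intro _ hα)⟩ with hP1
      set P2 : {P : HeightOneSpectrum eis // bl P = p} :=
        ⟨hp (cj α) hpr', bl_hp hpr' p (Dvd.intro _ hα')⟩ with hP2
      have hne : P1 ≠ P2 := by
        intro h0
        have h1 : (sp α : Ideal eis) = sp (cj α) :=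
          congrArg HeightOneSpectrum.asIdeal (congrArg Subtype.val h0)
        have h2 := prim6_unique hα1 hα1' h1
        -- `α` is an integer
        obtain ⟨x, y, hx⟩ := α.2
        have h3 := congrArg (fun t : eis => (t : ℂ).im) h2
        simp only [cj_coe, Complex.conj_im] at h3
        have h4 : (α : ℂ).im = 0 := by linarith
        rw [hx] at h4
        simp only [Complex.add_im, Complex.mul_im, Complex.intCast_im, Complex.intCast_re,
          zero_mul, add_zero, zero_add] at h4
        have h5 : (y : ℝ) = 0 := by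
          rcases mul_eq_zero.1 h4 with h5 | h5
          · exact h5
          · exact absurd h5 om_im.ne'
        have h6 : y = 0 := by exact_mod_cast h5
        rw [hx, norm_rep, h6] at hn
        have h7 : x ^ 2 = ((p : ℕ) : ℤ) := by
          have : (x ^ 2 - x * 0 + 0 ^ 2 : ℤ) = ((p : ℕ) : ℤ) := by exact_mod_cast hn
          linear_combination this
        have h8 : (x.natAbs) ^ 2 = (p : ℕ) := by
          zify
          rw [sq_abs]
          exact h7
        have h9 := p.2
        rw [← h8] at h9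
        exact (Nat.Prime.not_prime_pow (le_refl 2)) h9
      have hall : ∀ P : {P : HeightOneSpectrum eis // bl P = p}, P = P1 ∨ P = P2 := by
        intro P
        have h1 : α * cj α ∈ P.1.asIdeal := by
          rw [hα]
          have := bl_mem P.1
          rwa [P.2] at this
        rcases P.1.isPrime.mem_or_mem h1 with h | h
        · exact Or.inl (Subtype.ext (eq_hp hpr P.1 h))
        · exact Or.inr (Subtype.ext (eq_hp hpr' P.1 h))
      have hP := hasProd_prod_of_ne_finset_one (L := .unconditional _) (s := {P1, P2})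
        (f := fun P : {P : HeightOneSpectrum eis // bl P = p} => (1 - fN D s P.1.asIdeal)⁻¹)
        (fun P hP => by
          exfalso
          apply hP
          rw [Finset.mem_insert, Finset.mem_singleton]
          exact hall P)
      rw [Finset.prod_pair hne] at hP
      have val : ∀ β : eis, β - 1 ∈ (sp (2 * la) : Ideal eis) → Complex.normSq (β : ℂ) = (p : ℕ) →
          fN D s (sp β) = β * chN D p * ((p : ℕ) : ℂ) ^ (-s) := by
        intro β hβ hnβ
        unfold fN XD c4I
        rw [psi6_prim hβ, nm_spn β hnβ, hrec]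
        have : (nm (sp β : Ideal eis) : ℂ) = ((p : ℕ) : ℂ) := by
          unfold nm
          rw [nm_spn β hnβ]
          push_cast
          rfl
        rw [this]
        unfold chN
        push_cast
        ring
      have v1 : fN D s P1.1.asIdeal = α * chN D p * ((p : ℕ) : ℂ) ^ (-s) := val α hα1 hn
      have v2 : fN D s P2.1.asIdeal = (cj α : eis) * chN D p * ((p : ℕ) : ℂ) ^ (-s) :=
        val (cj α) hα1' hn'
      rw [v1, v2] at hP
      refine Eq.mp ?_ hP
      congr 1
      have hap := b6_split p.2 hm hα hα1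
      have hpC : (α : ℂ) * (starRingEnd ℂ) (α : ℂ) = ((p : ℕ) : ℂ) := by
        have := congrArg (fun t : eis => (t : ℂ)) hα
        push_cast at this
        rw [cj_coe] at this
        exact this
      rw [← mul_inv, hap, he, cj_coe]
      congr 1
      push_cast
      set X := (((p : ℕ)) : ℂ) ^ (-s)
      set C := (chN D p : ℂ)
      linear_combination (C ^ 2 * X ^ 2) * hpC
    · -- inert primes
      have hpr := inert_prime p.2 hm
      set P1 : {P : HeightOneSpectrum eis // bl P = p} := ⟨hp _ hpr, bl_hp hpr p dvd_rfl⟩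
      have hall : ∀ P : {P : HeightOneSpectrum eis // bl P = p}, P = P1 := by
        intro P
        refine Subtype.ext (eq_hp hpr P.1 ?_)
        have := bl_mem P.1
        rwa [P.2] at this
      have hP := hasProd_prod_of_ne_finset_one (L := .unconditional _) (s := {P1})
        (f := fun P : {P : HeightOneSpectrum eis // bl P = p} => (1 - fN D s P.1.asIdeal)⁻¹)
        (fun P hP => by
          exfalso
          apply hP
          rw [Finset.mem_singleton]
          exact hall P)
      rw [Finset.prod_singleton] at hP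
      have hn : Complex.normSq (((p : ℕ) : eis) : ℂ) = ((p : ℕ) ^ 2 : ℕ) := by
        push_cast
        rw [Complex.normSq_natCast]
        ring
      have hneg : (-((p : ℕ) : eis)) - 1 ∈ (sp (2 * la) : Ideal eis) := by
        have h1 := mem_2la (-((p : ℕ) : ℤ) - 1) 0 (by
          obtain ⟨k, hk⟩ := hodd
          exact ⟨-(k + 1), by rw [hk]; push_cast; ring⟩) (by norm_num) (by omega)
        convert h1 using 1
        push_cast
        ring
      have hsp : (sp ((p : ℕ) : eis) : Ideal eis) = sp (-((p : ℕ) : eis)) :=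
        (Ideal.span_singleton_neg _).symm
      have v1 : fN D s P1.1.asIdeal = -((p : ℕ) : ℂ) * (((p : ℕ) : ℂ) ^ (-s)) ^ 2 := by
        show fN D s (sp ((p : ℕ) : eis)) = _
        unfold fN XD c4I
        have h1 : psi6 (sp ((p : ℕ) : eis)) = -((p : ℕ) : ℂ) := by
          rw [hsp, psi6_prim hneg]
          push_cast
          rfl
        have h2 : (nm (sp ((p : ℕ) : eis) : Ideal eis) : ℂ) = (((p : ℕ) ^ 2 : ℕ) : ℂ) := by
          unfold nm
          rw [nm_spn _ hn]
          push_cast
          rfl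
        have hc3 := chi4_sq (Nat.odd_iff.1 hodd)
        have hsqM : chM D (p : ℕ) ^ 2 = 1 := by
          have h5 := hsq
          unfold chN at h5
          rw [mul_pow, hc3, one_mul] at h5
          exact h5
        have h4 : jacobiSym ((((p : ℕ) ^ 2 : ℕ)) : ℤ) D = 1 := by
          push_cast
          rw [jacobiSym.pow_left, hrec, hsqM]
        have h5 : ZMod.χ₄ ((((p : ℕ) ^ 2 : ℕ)) : ZMod 4) = 1 := by
          push_cast
          rw [map_pow, hc3]
        rw [h1, nm_spn _ hn, h4, h5, h2, cpow_two]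
        push_cast
        ring
      rw [v1] at hP
      refine Eq.mp ?_ hP
      congr 1
      have hC : (chN D p : ℂ) ^ 2 = 1 := by exact_mod_cast hsq
      rw [b6_inert p.2 hm, he]
      congr 1
      push_cast
      linear_combination (-((p : ℕ) : ℂ) * (((p : ℕ) : ℂ) ^ (-s)) ^ 2) * hC

/-- **the Hecke series is the L-series of the curve** -/
theorem deuringN {D : ℕ} (h : AdmM D) (hX : ∀ I J : Ideal eis, XD D (I * J) = XD D I * XD D J)
    {F : ℂ → ℂ} (hF : ∀ z : ℂ, 3 / 2 < z.re →
      HasSum (fun J : Ideal eis => psi6 J * c4I J * XD D J * (nm J : ℂ) ^ (-z)) (F z)) :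
    (∀ z : ℂ, 3 / 2 < z.re → HasProd (fun p : Nat.Primes =>
      (1 - b6 p * (chN D (p : ℕ) * ((p : ℕ) : ℂ) ^ (-z)) +
      e6 p * (chN D (p : ℕ) * ((p : ℕ) : ℂ) ^ (-z)) ^ 2)⁻¹) (F z)) ∧
    ∀ s : ℂ, 2 < s.re → F s = (WN ℚ D).LSeries s := by
  have key : ∀ z : ℂ, 3 / 2 < z.re → HasProd (fun p : Nat.Primes =>
      (1 - b6 p * (chN D (p : ℕ) * ((p : ℕ) : ℂ) ^ (-z)) +
      e6 p * (chN D (p : ℕ) * ((p : ℕ) : ℂ) ^ (-z)) ^ 2)⁻¹) (F z) := by
    intro z hz
    have h1 := hF z hz
    have hb : nm (⊤ : Ideal eis) = 1 := by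
      have e : (⊤ : Ideal eis) = sp 1 := Ideal.span_singleton_one.symm
      rw [e]
      unfold nm
      rw [nm_spn 1 (n := 1) (by simp)]
      norm_num
    have hmul : ∀ I J : Ideal eis, nm (I * J) = nm I * nm J := (lbasic eis om qr).2.2.2.1
    have h2 := hasProd_ideal (fN D z) (by
      unfold fN
      have : psi6 (⊥ : Ideal eis) = 0 := (psi6_zero_iff _).2 not_cop_bot6
      rw [this, zero_mul, zero_mul, zero_mul]) (by
      unfold fN XD c4I
      have e : (⊤ : Ideal eis) = sp 1 := Ideal.span_singleton_one.symm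
      have h3 : psi6 (sp (1 : eis)) = 1 := by
        rw [psi6_prim (by rw [sub_self]; exact Submodule.zero_mem _)]
        rfl
      have h4 : (Nat.card (eis ⧸ (⊤ : Ideal eis)) : ℕ) = 1 := by
        rw [e]
        exact nm_spn 1 (n := 1) (by simp)
      rw [hb, h4]
      rw [e, h3]
      push_cast
      rw [jacobiSym.one_left]
      simp) (fun I J => by
      unfold fN
      rw [(t_PSI).mul, c4I_mul, hX, hmul]
      have h0 : ∀ K : Ideal eis, 0 ≤ nm K := Pool.Agent.Y696.nm_nonneg
      push_cast
      rw [Complex.mul_cpow_ofReal_nonneg (h0 I) (h0 J)]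
      ring) h1.summable
    have h3 := regroup h2 fun p => factorN h z p
    have h4 : ∑' I : Ideal eis, fN D z I = F z := h1.tsum_eq
    rwa [h4] at h3
  refine ⟨key, lseriesN h fun z hz => key z (by linarith)⟩

/-- **the Euler product** -/
theorem t_DEURN (D : ℕ) (h : AdmM D) (F : ℂ → ℂ) (hF : ∀ z : ℂ, 3 / 2 < z.re →
    HasSum (fun J : Ideal eis => psi6 J * c4I J * XD D J * (nm J : ℂ) ^ (-z)) (F z)) :
    (∀ z : ℂ, 3 / 2 < z.re → HasProd (fun p : Nat.Primes =>
      (1 - b6 p * (chN D (p : ℕ) * ((p : ℕ) : ℂ) ^ (-z)) +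
      e6 p * (chN D (p : ℕ) * ((p : ℕ) : ℂ) ^ (-z)) ^ 2)⁻¹) (F z)) ∧
    ∀ s : ℂ, 2 < s.re → F s = (WN ℚ D).LSeries s := deuringN h (XD_mul D) hF

end Pool.Agent.L0h4.T4
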