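import Pool.Agent.L0h86.F3.Val
import Pool.Agent.L0h86.F1.Tor
import Pool.Agent.L0h4.T3.CvS
import Pool.Agent.L0h23.FD.Fin

/-!
# The curves `y² = x³ - D³`, `D ≡ 1 mod 4`: definitions and statements

`ψ χ₋₄(N)` is the Hecke character of `y² = x³ - 1`. The criterion is `Cr4` again: the induction is the
one of `y² = x³ + D³` with `bt` replaced by its conjugate.
-/

set_option autoImplicit false
set_option linter.unusedSectionVars false

open Filter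
open scoped Topology PeriodPair

namespace Pool.Agent.L0h4.T4

open H667R3 Pool.Agent.W192.HK Pool.Agent.TH936.CM
open Pool.Agent.TH936.PU hiding pf
open Pool.Agent.Y696 Pool.Agent.Y715.T.Lat
open Pool.Agent.L0h86.F3
open Pool.Agent.Y698.SG (lg ix)
open NumberField IsDedekindDomain WithZero MeasureTheory WeierstrassCurve

/-! ### the curve -/

/-- the curve `y² = x³ - D³` -/
def WN (k : Type*) [CommRing k] (D : ℕ) : WeierstrassCurve k := ⟨0, 0, 0, 0, -(D : k) ^ 3⟩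

/-! ### the Hecke character -/

/-- `χ₋₄` of the norm -/
noncomputable def c4I (J : Ideal eis) : ℂ := ((ZMod.χ₄ (Nat.card (eis ⧸ J) : ZMod 4) : ℤ) : ℂ)

/-- N1: `psi6 χ₋₄(N)` is a Hecke character of conductor `4√-3` -/
def S_PS4 : Prop := HC 1 (sp (4 * la : eis)) fun J => psi6 J * c4I J

/-! ### the function -/

/-- the division point of order `4√-3` -/
noncomputable def P1 (Ω : ℂ) : ℂ := Ω / ((4 * la : eis) : ℂ)

/-- the alternating sum over the points of order two -/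
noncomputable def G1 (Ω z : ℂ) : ℂ :=
  Ev Ω z + Ev Ω (z + Ω / 2) - Ev Ω (z + Ω * om / 2) - Ev Ω (z + Ω * om ^ 2 / 2)

/-- the function -/
noncomputable def F1v (Ω z : ℂ) : ℂ := G1 Ω (P1 Ω + z)

/-- N2: the values at the points of odd order -/
def S_EV4 : Prop := ∀ {Γ : Type} [LinearOrderedCommGroupWithZero Γ] (v : Valuation ℂ Γ), v 2 < 1 →
  ∀ (L : PeriodPair) (Ω : ℂ), Cur L Ω → ∀ n : eis, n ≠ 0 → IsCoprime (2 : eis) n → N1 n →
    ∀ x : eis, R4 v (F1v Ω (Ω * x / n) / (4 * ℘[L] (Ω / 2) ^ 2)) 1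

/-- N3: the values of the `L`-series -/
def S_VALN : Prop := ∀ (Q P : Finset ℕ) (ϖ : ℕ → eis) (D : ℕ), Dt Q P ϖ → D = ∏ q ∈ Q ∪ P, q →
  (Q ∪ P).Nonempty → ∃ F : ℂ → ℂ, Differentiable ℂ F ∧
    (∀ z : ℂ, 3 / 2 < z.re →
      HasSum (fun J : Ideal eis => psi6 J * c4I J * XD D J * (nm J : ℂ) ^ (-z)) (F z)) ∧
    ∀ {Γ : Type} [LinearOrderedCommGroupWithZero Γ] (v : Valuation ℂ Γ), v 2 < 1 →
    ∀ (L : PeriodPair) (Ω : ℂ), Cur L Ω → ∃ s : ℂ, R4 v s (F4.cj (g4 (pf Q ϖ) (ix Q P))) ∧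
      v ((starRingEnd ℂ) (F 1) / Ω) = v 2 ^ (ix Q P).card * v (℘[L] (Ω / 2)) ^ 2 * v s

/-! ### the arithmetic of the curve -/

/-- N4: the local condition at two for `D ≡ 3 mod 4` -/
def S_C2N : Prop := ∀ (D : ℤ) (z : eis), D % 4 = 3 → ((4 : eis) ∣ z - 1 ∨ (4 : eis) ∣ z - la) →
  Pool.Agent.L0h4.T3.LZ ℚ_[2] D z

/-- N5: the descent -/
def S_DESN : Prop := ∀ (Q P : Finset ℕ) (ϖ : ℕ → eis) (D : ℕ), Dt Q P ϖ → D = ∏ q ∈ Q ∪ P, q →
  D % 4 = 1 → Cr4 Q P ϖ → Finite (WN ℚ D).toAffine.Point ∧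
    ∀ (x : Pool.Agent.TH841.NF.D.Sha (WN ℚ D)) (k : ℕ), 2 ^ k • x = 0 → x = 0

end Pool.Agent.L0h4.T4
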