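import Pool.Agent.L0h4.T4.Ps8

/-!
# The curves `y² = x³ - 8 m³`
-/

set_option autoImplicit false
set_option linter.unusedSectionVars false

namespace Pool.Agent.L0h4.T4

/-- the curve `y² = x³ - 8 m³` -/
def WC (k : Type*) [CommRing k] (m : ℕ) : WeierstrassCurve k := ⟨0, 0, 0, 0, -(8 * (m : k) ^ 3)⟩

/-- the parameters -/
structure AdmC (m : ℕ) : Prop where
  sf : Squarefree m
  m2 : m % 2 = 1
  n3 : ¬ 3 ∣ m

open Classical in
/-- the character of the Hecke character of the curve -/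
noncomputable def chr8 (m : ℕ) : MulChar (ZMod 8) ℤ := if m % 4 = 1 then ZMod.χ₈' else ZMod.χ₈

lemma chr8_X8 (m : ℕ) : X8 (chr8 m) := by
  unfold chr8
  split_ifs
  · exact x8_two
  · exact x8_one

end Pool.Agent.L0h4.T4
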