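import Pool.Agent.L0h4.T4.Def
import Pool.Agent.L0h4.T3.Eul

/-!
# The local factors of the L-series of `y² = x³ - D³`
-/

set_option autoImplicit false
set_option linter.unusedSectionVars false

namespace Pool.Agent.L0h4.T4

open Pool.Agent.Y698 Pool.Agent.L0h23.EV
open Pool.Agent.L0h86.F1 (AdmM)
open Pool.Agent.L0h4.T3 (N36 b6 e6 chM card_iso)
open NumberField IsDedekindDomain WeierstrassCurve Pool.Agent.W189.NF IsCyclotomicExtension.Rat
open Pool.Agent.H921R2.TatePole Pool.Agent.H82R3.EK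

lemma WN_map {k l : Type*} [CommRing k] [CommRing l] (D : ℕ) (φ : k →+* l) :
    (WN k D).map φ = WN l D := by
  unfold WN
  ext <;> simp [WeierstrassCurve.map]

lemma WN_Δ {k : Type*} [CommRing k] (D : ℕ) : (WN k D).Δ = -(2 ^ 4 * 3 ^ 3 * (D : k) ^ 6) := by
  unfold WN WeierstrassCurve.Δ WeierstrassCurve.b₂ WeierstrassCurve.b₄ WeierstrassCurve.b₆
    WeierstrassCurve.b₈
  ring

lemma WN_c₄ {k : Type*} [CommRing k] (D : ℕ) : (WN k D).c₄ = 0 := by
  unfold WN WeierstrassCurve.c₄ WeierstrassCurve.b₂ WeierstrassCurve.b₄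
  ring

/-- the value at the prime number `p` of the quadratic character of the field `ℚ(√-D)` -/
noncomputable def chN (D p : ℕ) : ℤ := ZMod.χ₄ p * chM D p

lemma chi4_sq {p : ℕ} (h : p % 2 = 1) : (ZMod.χ₄ (p : ZMod 4)) ^ 2 = 1 := by
  rcases ZMod.χ₄_nat_mod_four p with h1
  rw [h1]
  have h2 : p % 4 = 1 ∨ p % 4 = 3 := by omega
  rcases h2 with h2 | h2 <;> rw [h2] <;> decide

lemma chN_sq {D p : ℕ} (hp : p.Prime) (h2 : p ≠ 2) (hpD : ¬ p ∣ D) : chN D p ^ 2 = 1 := by
  unfold chN chM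
  rw [mul_pow, chi4_sq (Nat.odd_iff.1 (hp.odd_of_ne_two h2)), one_mul, jacobiSym.sq_one]
  rw [Int.gcd_natCast_natCast]
  exact ((hp.coprime_iff_not_dvd).2 hpD).symm

lemma card_isoZ {k l : Type} [Field k] [Field l] (e : k ≃+* l) (b : ℤ) :
    Nat.card {x : k × k // x.2 ^ 2 = x.1 ^ 3 + (b : k)} =
      Nat.card {x : l × l // x.2 ^ 2 = x.1 ^ 3 + (b : l)} := by
  refine Nat.card_congr
    { toFun := fun x => ⟨(e x.1.1, e x.1.2), by
        have := congrArg e x.2
        simpa using this⟩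
      invFun := fun x => ⟨(e.symm x.1.1, e.symm x.1.2), by
        have := congrArg e.symm x.2
        simpa using this⟩
      left_inv := fun x => by
        apply Subtype.ext
        simp
      right_inv := fun x => by
        apply Subtype.ext
        simp }

/-- the trace of Frobenius of the twist over a prime field -/
theorem trace_N (k : Type) [Field k] [Finite k] {p : ℕ} (hp : p.Prime) (hp2 : p ≠ 2) (hp3 : p ≠ 3)
    (hk : Nat.card k = p) {D : ℕ} (hpD : ¬ p ∣ D) :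
    (Nat.card k : ℤ) - Nat.card (AP (WN k D)) = chN D p * b6 p := by
  classical
  have : Fact p.Prime := ⟨hp⟩
  let _ : Fintype k := Fintype.ofFinite k
  have hk' : Fintype.card k = p := by rw [← Nat.card_eq_fintype_card, hk]
  have hpD' : ¬ (p : ℤ) ∣ (-D : ℤ) := fun h => hpD (by
    rw [dvd_neg] at h
    exact_mod_cast h)
  have e0 : Nat.card (AP (WN k D)) = Nat.card {x : k × k // x.2 ^ 2 = x.1 ^ 3 +
      (((-D) ^ 3 : ℤ) : k)} := by
    apply Nat.card_congr
    apply Equiv.subtypeEquivRight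
    rintro ⟨x, y⟩
    rw [WeierstrassCurve.Affine.equation_iff]
    unfold WN
    simp only
    push_cast
    constructor
    · intro h
      linear_combination h
    · intro h
      linear_combination h
  have e1 := card_isoZ (ZMod.ringEquivOfPrime k hp hk').symm ((-D) ^ 3)
  have hF : ringChar (ZMod p) ≠ 2 := by rwa [ZMod.ringChar_zmod_n]
  have hD0 : ((-D : ℤ) : ZMod p) ≠ 0 := by
    intro h
    exact hpD' ((ZMod.intCast_zmod_eq_zero_iff_dvd _ _).1 h)
  have htw := count_tw hF (0 : ZMod p) (1 : ZMod p) hD0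
  rw [ZMod.card] at htw
  have e2 : Nat.card {x : ZMod p × ZMod p // x.2 ^ 2 = x.1 ^ 3 + (((-D) ^ 3 : ℤ) : ZMod p)} =
      Nat.card {x : ZMod p × ZMod p // x.2 ^ 2 = x.1 ^ 3 + 0 * ((-D : ℤ) : ZMod p) ^ 2 * x.1 +
        1 * ((-D : ℤ) : ZMod p) ^ 3} := by
    apply Nat.card_congr
    apply Equiv.subtypeEquivRight
    rintro ⟨x, y⟩
    push_cast
    rw [zero_mul, zero_mul, add_zero, one_mul]
  have e3 : N36 p = Nat.card {x : ZMod p × ZMod p // x.2 ^ 2 = x.1 ^ 3 + 0 * x.1 + 1} := by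
    unfold N36
    apply Nat.card_congr
    apply Equiv.subtypeEquivRight
    rintro ⟨x, y⟩
    simp only
    rw [zero_mul, add_zero]
  rw [e0, e1, e2, hk, htw, ← e3]
  have hqc : quadraticChar (ZMod p) ((-D : ℤ) : ZMod p) = jacobiSym (-D : ℤ) p := by
    have h3 : quadraticChar (ZMod p) ((-D : ℤ) : ZMod p) = legendreSym p (-D : ℤ) := rfl
    rw [h3, jacobiSym.legendreSym.to_jacobiSym]
  unfold b6 chN chM
  rw [if_neg (by rintro (h | h) <;> contradiction), hqc, jacobiSym.neg _ (hp.odd_of_ne_two hp2)]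

/-- the coefficients of the local factors -/
theorem coeffsN {D : ℕ} (h : AdmM D) (v : HeightOneSpectrum (𝓞 ℚ)) :
    aV (WN ℚ D) v = chN D (below v : ℕ) * b6 (below v : ℕ) ∧
    eV (WN ℚ D) v = chN D (below v : ℕ) ^ 2 * e6 (below v : ℕ) := by
  classical
  have hD0 : D ≠ 0 := h.sf.ne_zero
  have hW0 : (WN ℚ D).baseChange (v.adicCompletion ℚ) = WN (v.adicCompletion ℚ) D :=
    WN_map D (algebraMap ℚ (v.adicCompletion ℚ))
  have hW : (WN ℚ D).baseChange (v.adicCompletion ℚ) =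
      (WN (Ov v) D).map (algebraMap (Ov v) (v.adicCompletion ℚ)) := by
    rw [hW0, WN_map]
  have hj3 : ((WN ℚ D).baseChange (v.adicCompletion ℚ)).c₄ ^ 3 =
      (0 : v.adicCompletion ℚ) * ((WN ℚ D).baseChange (v.adicCompletion ℚ)).Δ := by
    rw [hW0, WN_c₄]
    ring
  have hpr : (below v : ℕ).Prime := (below v).2
  have hvb := vL_below v
  have hadd : ∀ m : ℕ, ¬ 12 ∣ m →
      vL v ((WN ℚ D).baseChange (v.adicCompletion ℚ)).Δ = WithZero.exp (-(m : ℤ)) →
      aV (WN ℚ D) v = 0 ∧ eV (WN ℚ D) v = 0 := fun m hm hΔ =>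
    min_add' (v.adicCompletionIntegers ℚ) hm hΔ (by rw [map_zero]; exact zero_le) hj3
  have hexp : ∀ m : ℕ, WithZero.exp (-1 : ℤ) ^ m = WithZero.exp (-(m : ℤ)) := by
    intro m
    rw [← WithZero.exp_nsmul]
    simp
  have h2o : ¬ 2 ∣ D := by have := h.m4; omega
  by_cases h2 : (below v : ℕ) = 2
  · have h8 : vL v (2 : v.adicCompletion ℚ) = WithZero.exp (-1 : ℤ) := by
      rw [h2] at hvb
      exact_mod_cast hvb
    have h3 : vL v (3 : v.adicCompletion ℚ) = 1 := by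
      have := vL_unit v (m := 3) (by rw [h2]; norm_num)
      exact_mod_cast this
    have h9 := vL_unit v (m := D) (by rw [h2]; exact h2o)
    have hΔ : vL v ((WN ℚ D).baseChange (v.adicCompletion ℚ)).Δ = WithZero.exp (-((4 : ℕ) : ℤ)) := by
      rw [hW0, WN_Δ, Valuation.map_neg, map_mul, map_mul, map_pow, map_pow, map_pow, h3, h8, h9,
        one_pow, one_pow, mul_one, mul_one, hexp]
    obtain ⟨a1, a2⟩ := hadd 4 (by norm_num) hΔ
    rw [a1, a2, h2]
    unfold b6 e6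
    rw [if_pos (Or.inl rfl), if_pos (Or.inl rfl), mul_zero, mul_zero]
    exact ⟨rfl, rfl⟩
  by_cases hb : (below v : ℕ) = 3
  · have h3 : vL v (3 : v.adicCompletion ℚ) = WithZero.exp (-1 : ℤ) := by
      rw [hb] at hvb
      exact_mod_cast hvb
    have h8 : vL v (2 : v.adicCompletion ℚ) = 1 := by
      have := vL_unit v (m := 2) (by rw [hb]; norm_num)
      exact_mod_cast this
    have h9 := vL_unit v (m := D) (by rw [hb]; exact h.n3)
    have hΔ : vL v ((WN ℚ D).baseChange (v.adicCompletion ℚ)).Δ = WithZero.exp (-((3 : ℕ) : ℤ)) := by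
      rw [hW0, WN_Δ, Valuation.map_neg, map_mul, map_mul, map_pow, map_pow, map_pow, h3, h8, h9,
        one_pow, one_pow, one_mul, mul_one, hexp]
    obtain ⟨a1, a2⟩ := hadd 3 (by norm_num) hΔ
    rw [a1, a2, hb]
    unfold b6 e6
    rw [if_pos (Or.inr rfl), if_pos (Or.inr rfl), mul_zero, mul_zero]
    exact ⟨rfl, rfl⟩
  by_cases hbD : (below v : ℕ) ∣ D
  · have h3 : vL v (3 : v.adicCompletion ℚ) = 1 := by
      have := vL_unit v (m := 3) (fun hd => hb ((Nat.prime_dvd_prime_iff_eq hpr (by norm_num)).1 hd))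
      exact_mod_cast this
    have h8 : vL v (2 : v.adicCompletion ℚ) = 1 := by
      have := vL_unit v (m := 2) (fun hd => h2 ((Nat.prime_dvd_prime_iff_eq hpr Nat.prime_two).1 hd))
      exact_mod_cast this
    obtain ⟨m, hm⟩ := hbD
    have hpm : ¬ (below v : ℕ) ∣ m := by
      intro hd
      have h3 : (below v : ℕ) * (below v : ℕ) ∣ D := by
        rw [hm]
        exact mul_dvd_mul_left _ hd
      exact hpr.one_lt.ne' (Nat.isUnit_iff.1 (h.sf _ h3))
    have h9 := vL_unit v hpm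
    have hvD : vL v (D : v.adicCompletion ℚ) = WithZero.exp (-1 : ℤ) := by
      have e : (D : v.adicCompletion ℚ) = ((below v : ℕ) : v.adicCompletion ℚ) * (m : v.adicCompletion ℚ) := by
        rw [← Nat.cast_mul, ← hm]
      rw [e, map_mul, hvb, h9, mul_one]
    have hΔ : vL v ((WN ℚ D).baseChange (v.adicCompletion ℚ)).Δ = WithZero.exp (-((6 : ℕ) : ℤ)) := by
      rw [hW0, WN_Δ, Valuation.map_neg, map_mul, map_mul, map_pow, map_pow, map_pow, h3, h8, hvD,
        one_pow, one_pow, one_mul, one_mul, hexp]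
    obtain ⟨a1, a2⟩ := hadd 6 (by norm_num) hΔ
    have hc0 : chN D (below v : ℕ) = 0 := by
      unfold chN
      rw [mul_eq_zero]
      right
      unfold chM
      have hne : NeZero (below v : ℕ) := ⟨hpr.ne_zero⟩
      rw [jacobiSym.eq_zero_iff_not_coprime]
      intro hc
      have h4 : (below v : ℕ) ∣ Int.gcd (D : ℤ) ((below v : ℕ) : ℤ) := by
        rw [Int.gcd_natCast_natCast]
        exact Nat.dvd_gcd ⟨m, hm⟩ dvd_rfl
      rw [hc] at h4
      exact hpr.one_lt.ne' (Nat.dvd_one.1 h4)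
    rw [a1, a2, hc0]
    constructor
    · ring
    · ring
  · have hfin := finite_res v
    have hcard := card_res_Q v
    have hΔ : IsUnit (WN (Ov v) D).Δ := by
      rw [WN_Δ]
      have u2 := unit_Q v (m := 2) (fun hd => h2 ((Nat.prime_dvd_prime_iff_eq hpr Nat.prime_two).1 hd))
      have u3 := unit_Q v (m := 3) (fun hd => hb ((Nat.prime_dvd_prime_iff_eq hpr (by norm_num)).1 hd))
      have uD := unit_Q v (m := D) hbD
      push_cast at u2 u3 uD
      exact ((((u2.pow 4).mul (u3.pow 3))).mul (uD.pow 6)).neg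
    obtain ⟨a1, a2⟩ := min_count (v.adicCompletionIntegers ℚ) hΔ hW
    unfold aV eV
    rw [a1, a2, WN_map]
    have hsq : chN D (below v : ℕ) ^ 2 = 1 := chN_sq hpr h2 hbD
    constructor
    · exact trace_N (IsLocalRing.ResidueField (Ov v)) hpr h2 hb hcard hbD
    · have : e6 (below v : ℕ) = ((below v : ℕ) : ℤ) := by
        unfold e6
        rw [if_neg (by rintro (h | h) <;> contradiction)]
      rw [this, hsq, one_mul]
      have h3 : Nat.card (IsLocalRing.ResidueField (v.adicCompletionIntegers ℚ)) = (below v : ℕ) :=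
        hcard
      rw [h3]

/-- **the Euler product is the L-series of the curve** -/
theorem lseriesN {D : ℕ} (h : AdmM D) {F : ℂ → ℂ}
    (g2 : ∀ z : ℂ, 2 < z.re → HasProd (fun p : Nat.Primes =>
      (1 - b6 p * (chN D (p : ℕ) * ((p : ℕ) : ℂ) ^ (-z)) +
      e6 p * (chN D (p : ℕ) * ((p : ℕ) : ℂ) ^ (-z)) ^ 2)⁻¹) (F z)) :
    ∀ s : ℂ, 2 < s.re → F s = (WN ℚ D).LSeries s := by
  classical
  intro s hs
  have h1 := g2 s hs
  have h2 := (LSeries_hasProd (WN ℚ D) hs).2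
  have h3 := (Equiv.sigmaFiberEquiv (below (K := ℚ))).hasProd_iff.2 h2
  have h4 := h3.sigma (g := fun q : Nat.Primes =>
    (1 - b6 q * (chN D (q : ℕ) * ((q : ℕ) : ℂ) ^ (-s)) +
      e6 q * (chN D (q : ℕ) * ((q : ℕ) : ℂ) ^ (-s)) ^ 2)⁻¹) (fun q => by
    have hu := card_Q q
    rw [Fintype.card_eq_one_iff] at hu
    obtain ⟨v0, hv0⟩ := hu
    have huniq : Unique {v : HeightOneSpectrum (𝓞 ℚ) // below v = q} := ⟨⟨v0⟩, hv0⟩
    have e : (1 - b6 q * (chN D (q : ℕ) * ((q : ℕ) : ℂ) ^ (-s)) +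
        e6 q * (chN D (q : ℕ) * ((q : ℕ) : ℂ) ^ (-s)) ^ 2)⁻¹ =
        (1 - (aV (WN ℚ D) v0.1 : ℂ) * (nm v0.1 : ℂ) ^ (-s) +
          (eV (WN ℚ D) v0.1 : ℂ) * ((nm v0.1 : ℂ) ^ (-s)) ^ 2)⁻¹ := by
      obtain ⟨c1, c2⟩ := coeffsN h v0.1
      rw [c1, c2, (nm_eq v0.1).1, deg_Q, pow_one, v0.2]
      push_cast
      congr 1
      ring
    rw [e]
    have h5 := hasProd_unique (fun v : {v : HeightOneSpectrum (𝓞 ℚ) // below v = q} =>
      (1 - (aV (WN ℚ D) v.1 : ℂ) * (nm v.1 : ℂ) ^ (-s) +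
          (eV (WN ℚ D) v.1 : ℂ) * ((nm v.1 : ℂ) ^ (-s)) ^ 2)⁻¹)
    have e5 : (default : {v : HeightOneSpectrum (𝓞 ℚ) // below v = q}) = v0 := hv0 _
    rw [e5] at h5
    exact h5)
  exact h1.unique h4

end Pool.Agent.L0h4.T4
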