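import Pool.Agent.L0h4.T4.Def

/-!
# Weighted sums of the values of a function with a distribution relation, and the induction
-/

set_option autoImplicit false
set_option linter.unusedSectionVars false

open Filter
open scoped Topology PeriodPair

namespace Pool.Agent.L0h4.T4

open H667R3 Pool.Agent.W192.HK Pool.Agent.TH936.CM
open Pool.Agent.TH936.PU hiding pf
open Pool.Agent.Y696 Pool.Agent.Y715.T.Lat
open Pool.Agent.L0h86.F3 hiding Bv_eq
open Pool.Agent.Y698.SG (lg lg_one lg_neg_one lg_mul sgn_mul sgn_prod ix)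

variable {L : PeriodPair} {Ω : ℂ} {Γ : Type*} [LinearOrderedCommGroupWithZero Γ]
  {v : Valuation ℂ Γ} {F : ℂ → ℂ} {ε : eis → ℂ}

lemma F4add_one : (1 + 1 : F4) = 0 := by decide

/-- a function with a distribution relation -/
structure FN (L : PeriodPair) (Ω : ℂ) (F : ℂ → ℂ) (ε : eis → ℂ) : Prop where
  per : ∀ {z w : ℂ}, w - z ∈ L.lattice → F w = F z
  dist : ∀ {a : eis}, a ≠ 0 → N1 a → ∀ [Fintype (eis ⧸ sp a)] {z : ℂ}, Tor L z →
    ∑ q : eis ⧸ sp a, F (z + Ω * q.out / a) = a * ε a * F (a * z)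

/-- the weighted sum -/
noncomputable def Bw (F : ℂ → ℂ) (Ω : ℂ) (n : eis) (φ : eis → ℂ) : ℂ :=
  ∑ᶠ x : eis ⧸ sp n, φ x.out * F (Ω * x.out / (n : ℂ))

lemma Bw_eq (n : eis) [Fintype (eis ⧸ sp n)] (φ : eis → ℂ) :
    Bw F Ω n φ = ∑ x : eis ⧸ sp n, φ x.out * F (Ω * x.out / (n : ℂ)) :=
  finsum_eq_sum_of_fintype _

lemma Bw_term (hL : IsLat L eis Ω) (hF : FN L Ω F ε) {n : eis} (hn : n ≠ 0)
    {φ : eis → ℂ} (hφ : Pe n φ) {x y : eis} (h : x - y ∈ sp n) :
    φ x * F (Ω * x / (n : ℂ)) = φ y * F (Ω * y / (n : ℂ)) := by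
  rw [hφ _ _ h]
  congr 1
  apply hF.per
  have h1 := (div_mem_iff hL hn (x - y)).2 h
  convert h1 using 1
  push_cast
  ring

theorem Bw_dist (hL : IsLat L eis Ω) (hF : FN L Ω F ε) {n q : eis} (hn0 : n ≠ 0)
    (hq0 : q ≠ 0) (hq1 : N1 q) {φ : eis → ℂ}
    (hφ : Pe n φ) : Bw F Ω (q * n) φ = q * ε q * Bw F Ω n φ := by
  have hqn0 : q * n ≠ 0 := mul_ne_zero hq0 hn0
  have f1 := fin_quot hn0
  have f2 := fin_quot hq0
  have f3 := fin_quot hqn0
  let _ : Fintype (eis ⧸ sp n) := Fintype.ofFinite _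
  let _ : Fintype (eis ⧸ sp q) := Fintype.ofFinite _
  let _ : Fintype (eis ⧸ sp (q * n)) := Fintype.ofFinite _
  have hq0' := coe_ne hq0
  have hn0' := coe_ne hn0
  have hφ' : Pe (q * n) φ := hφ.mono (Dvd.intro_left q rfl)
  rw [Bw_eq, Bw_eq]
  have hb := bij_mul (R := eis) (a := q) (f := n) hn0
  rw [sum_rep _ hb (fun x : eis => φ x * F (Ω * x / ((q * n : eis) : ℂ)))
    (fun x y h => Bw_term hL hF hqn0 hφ' h), Fintype.sum_prod_type, Finset.mul_sum]
  refine Finset.sum_congr rfl fun y _ => ?_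
  have h1 := hF.dist hq0 hq1 (Tor.of hL hqn0 y.out)
  have h2 : ∀ t : eis ⧸ sp q, φ (y.out + n * t.out) = φ y.out := by
    intro t
    apply hφ
    rw [add_sub_cancel_left, Ideal.mem_span_singleton']
    exact ⟨t.out, mul_comm _ _⟩
  simp only [h2]
  rw [← Finset.mul_sum]
  have e1 : ∀ t : eis ⧸ sp q, Ω * ((y.out + n * t.out : eis) : ℂ) / ((q * n : eis) : ℂ) =
      Ω * (y.out : eis) / ((q * n : eis) : ℂ) + Ω * t.out / q := by
    intro t
    push_cast
    field_simp
  simp only [e1]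
  rw [h1]
  have e2 : (q : ℂ) * (Ω * (y.out : eis) / ((q * n : eis) : ℂ)) = Ω * (y.out : eis) / n := by
    push_cast
    field_simp
  rw [e2]
  ring

open Classical in
/-- the multiples of `q` -/
theorem Bw_mult (hL : IsLat L eis Ω) (hF : FN L Ω F ε) {n q : eis} (hn0 : n ≠ 0)
    (hq0 : q ≠ 0) {φ : eis → ℂ} (hφ : Pe n φ) :
    Bw F Ω (q * n) (fun m => if m ∈ sp q then φ m else 0) =
      Bw F Ω n (fun m => φ (q * m)) := by
  have hqn0 : q * n ≠ 0 := mul_ne_zero hq0 hn0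
  have f1 := fin_quot hn0
  have f3 := fin_quot hqn0
  let _ : Fintype (eis ⧸ sp n) := Fintype.ofFinite _
  let _ : Fintype (eis ⧸ sp (q * n)) := Fintype.ofFinite _
  have hφ' : Pe (q * n) φ := hφ.mono (Dvd.intro_left q rfl)
  have hq0' : (q : ℂ) ≠ 0 := coe_ne hq0
  have hn0' : (n : ℂ) ≠ 0 := coe_ne hn0
  rw [Bw_eq, Bw_eq]
  -- the injection
  set g : eis ⧸ sp n → eis ⧸ sp (q * n) := fun y => Ideal.Quotient.mk _ (q * y.out) with hg
  have hginj : Function.Injective g := by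
    intro y y' h
    have h1 : q * y.out - q * y'.out ∈ sp (q * n) := by
      rw [← Ideal.Quotient.mk_eq_mk_iff_sub_mem]
      exact h
    rw [Ideal.mem_span_singleton'] at h1
    obtain ⟨b, hb⟩ := h1
    apply mk_eq
    rw [Ideal.mem_span_singleton']
    refine ⟨b, ?_⟩
    apply mul_left_cancel₀ hq0
    linear_combination hb
  have hterm : ∀ y : eis ⧸ sp n, (if (g y).out ∈ sp q then φ (g y).out else 0) *
      F (Ω * (g y).out / ((q * n : eis) : ℂ)) =
      φ (q * y.out) * F (Ω * y.out / (n : ℂ)) := by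
    intro y
    have h1 : (g y).out - q * y.out ∈ sp (q * n) := by
      have := neg_mem (out_mk (sp (q * n)) (q * y.out))
      rwa [neg_sub] at this
    have h2 : (g y).out ∈ sp q := by
      have h3 : (g y).out - q * y.out ∈ sp q := by
        rw [Ideal.mem_span_singleton'] at h1 ⊢
        obtain ⟨b, hb⟩ := h1
        exact ⟨b * n, by linear_combination hb⟩
      have h4 := add_mem h3 (Ideal.mul_mem_right y.out (sp q) (Ideal.mem_span_singleton_self q))
      rwa [sub_add_cancel] at h4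
    rw [if_pos h2, Bw_term hL hF hqn0 hφ' h1]
    congr 2
    push_cast
    field_simp
  rw [← Finset.sum_congr rfl (fun y _ => hterm y)]
  rw [← Finset.sum_image (s := Finset.univ) (g := g) (f := fun x : eis ⧸ sp (q * n) =>
    (if x.out ∈ sp q then φ x.out else 0) *
      F (Ω * x.out / ((q * n : eis) : ℂ))) (fun a _ b _ h => hginj h)]
  symm
  refine Finset.sum_subset (Finset.subset_univ _) fun x _ hx => ?_
  rw [if_neg, zero_mul]
  intro hd
  apply hx
  rw [Ideal.mem_span_singleton'] at hd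
  obtain ⟨c, hc⟩ := hd
  rw [Finset.mem_image]
  refine ⟨Ideal.Quotient.mk _ c, Finset.mem_univ _, ?_⟩
  show Ideal.Quotient.mk _ (q * (Ideal.Quotient.mk (sp n) c).out) = x
  conv_rhs => rw [← Ideal.Quotient.mk_out x]
  rw [Ideal.Quotient.mk_eq_mk_iff_sub_mem]
  have h1 := out_mk (sp n) c
  rw [Ideal.mem_span_singleton'] at h1
  obtain ⟨b, hb⟩ := h1
  rw [Ideal.mem_span_singleton']
  exact ⟨-b, by linear_combination -q * hb - hc⟩

open Classical in
/-- removing a prime -/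
theorem Bw_rem (hL : IsLat L eis Ω) (hF : FN L Ω F ε) {n q : eis} (hn0 : n ≠ 0)
    (hq0 : q ≠ 0) (hq1 : N1 q) {κ : ℂ} {φ : eis → ℂ}
    (hφ : Pe n φ) (hφq : ∀ m : eis, φ (q * m) = κ * φ m) :
    Bw F Ω (q * n) (fun m => if m ∈ sp q then 0 else φ m) = (q * ε q - κ) * Bw F Ω n φ := by
  have hqn0 : q * n ≠ 0 := mul_ne_zero hq0 hn0
  have f1 := fin_quot hn0
  let _ : Fintype (eis ⧸ sp n) := Fintype.ofFinite _
  have f3 := fin_quot hqn0
  let _ : Fintype (eis ⧸ sp (q * n)) := Fintype.ofFinite _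
  have h1 := Bw_dist hL hF hn0 hq0 hq1 hφ
  have h2 := Bw_mult hL hF hn0 hq0 hφ
  simp only [hφq] at h2
  have h3 : Bw F Ω (q * n) (fun m => if m ∈ sp q then 0 else φ m) =
      Bw F Ω (q * n) φ - Bw F Ω (q * n) (fun m => if m ∈ sp q then φ m else 0) := by
    rw [Bw_eq, Bw_eq, Bw_eq, ← Finset.sum_sub_distrib]
    refine Finset.sum_congr rfl fun x _ => ?_
    split_ifs <;> ring
  have h4 : Bw F Ω n (fun m => κ * φ m) = κ * Bw F Ω n φ := by
    rw [Bw_eq, Bw_eq, Finset.mul_sum]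
    exact Finset.sum_congr rfl fun x _ => by ring
  rw [h3, h1, h2, h4]
  ring

lemma Bw_smul {n : eis} (hn : n ≠ 0) (c : ℂ) (φ : eis → ℂ) :
    Bw F Ω n (fun m => c * φ m) = c * Bw F Ω n φ := by
  have f1 := fin_quot hn
  let _ : Fintype (eis ⧸ sp n) := Fintype.ofFinite _
  rw [Bw_eq, Bw_eq, Finset.mul_sum]
  exact Finset.sum_congr rfl fun x _ => by ring

lemma Bw_sum {n : eis} (hn : n ≠ 0) {ι : Type*} (s : Finset ι) (φ : ι → eis → ℂ) :
    Bw F Ω n (fun m => ∑ i ∈ s, φ i m) = ∑ i ∈ s, Bw F Ω n (φ i) := by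
  have f1 := fin_quot hn
  let _ : Fintype (eis ⧸ sp n) := Fintype.ofFinite _
  simp only [Bw_eq]
  rw [Finset.sum_comm]
  exact Finset.sum_congr rfl fun x _ => by rw [Finset.sum_mul]

/-- removing several primes -/
theorem Bw_rems {ι : Type} (hL : IsLat L eis Ω) (hF : FN L Ω F ε) {n : eis} (hn : n ≠ 0) {φ : eis → ℂ}
    (hφ : Pe n φ) {π : ι → eis} (κ : ι → ℂ) (B : Finset ι) (hB : FX B π)
    (hκ : ∀ i ∈ B, Mu (π i) φ (κ i)) :
    Bw F Ω ((∏ i ∈ B, π i) * n) (fun m => φ m * ∏ i ∈ B, tr (π i) m) =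
      (∏ i ∈ B, ((π i : ℂ) * ε (π i) - κ i)) * Bw F Ω n φ := by
  classical
  induction B using Finset.induction_on with
  | empty => simp
  | insert q B hq ih =>
    have hBs : FX B π := hB.mono (Finset.subset_insert _ _)
    have ih' := ih hBs fun p hp => hκ p (Finset.mem_insert_of_mem hp)
    have h1 := hB.pd q (Finset.mem_insert_self _ _)
    rw [Finset.prod_insert hq, mul_assoc, Finset.prod_insert hq, mul_assoc, ← ih']
    have hBg : (∏ i ∈ B, π i) * n ≠ 0 := mul_ne_zero (prod_ne hBs) hn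
    have e : (fun m : eis => φ m * ∏ i ∈ insert q B, tr (π i) m) =
        fun m : eis => if m ∈ sp (π q) then 0 else φ m * ∏ i ∈ B, tr (π i) m := by
      funext m
      rw [Finset.prod_insert hq]
      unfold tr
      split_ifs <;> ring
    rw [e]
    have hne : ∀ p ∈ B, p ≠ q := fun p hp h => hq (h ▸ hp)
    refine Bw_rem hL hF hBg h1.ne h1.n1 ?_ ?_
    · exact (hφ.mono (Dvd.intro_left _ rfl)).mul ((Pe.prod fun p _ => tr_per (π p)).mono
        (Dvd.intro _ rfl))
    · have h2 : Mu (π q) (fun m => φ m * ∏ i ∈ B, tr (π i) m) (κ q * ∏ i ∈ B, (1 : ℂ)) := by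
        refine (hκ q (Finset.mem_insert_self _ _)).mul (Mu.prod fun p hp m => ?_)
        rw [one_mul]
        exact tr_mul (hBs.pd p hp).pr (hB.ne q (Finset.mem_insert_self _ _) p
          (Finset.mem_insert_of_mem hp) (hne p hp).symm) m
      intro m
      have h3 := h2 m
      rw [Finset.prod_const_one, mul_one] at h3
      exact h3

/-- the sum over the subsets -/
theorem Bw_subsets {ι : Type} [DecidableEq ι] (hL : IsLat L eis Ω) (hF : FN L Ω F ε) {π : ι → eis} (S : Finset ι)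
    (hS : FX S π) :
    ∑ A ∈ S.powerset, (∏ i ∈ S \ A, ((π i : ℂ) * ε (π i) - ∏ j ∈ A, sy (π j) (π i))) *
      Bw F Ω (∏ i ∈ A, π i) (fun m => ∏ i ∈ A, sy (π i) m) =
    2 ^ S.card * Bw F Ω (∏ i ∈ S, π i) (fun m => ∏ i ∈ S, hc (π i) m) := by
  have hSg := prod_ne hS
  have h1 : ∀ A ∈ S.powerset, (∏ i ∈ S \ A, ((π i : ℂ) * ε (π i) - ∏ j ∈ A, sy (π j) (π i))) *
      Bw F Ω (∏ i ∈ A, π i) (fun m => ∏ i ∈ A, sy (π i) m) =
      Bw F Ω (∏ i ∈ S, π i)
        (fun m => (∏ i ∈ A, sy (π i) m) * ∏ i ∈ S \ A, tr (π i) m) := by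
    intro A hA
    rw [Finset.mem_powerset] at hA
    have hAg := prod_ne (hS.mono hA)
    rw [← Bw_rems hL hF hAg ?_ _ (S \ A) (hS.mono Finset.sdiff_subset) ?_]
    · rw [Finset.prod_sdiff hA]
    · exact Pe.prod fun p _ => sy_per (π p)
    · intro i hi
      rw [Finset.mem_sdiff] at hi
      exact Mu.prod (q := π i) (S := A) (f := fun j => sy (π j))
        (κ := fun j => sy (π j) (π i)) fun j hj m => (hS.pd j (hA hj)).mul _ _
  rw [Finset.sum_congr rfl h1, ← Bw_sum hSg, ← Bw_smul hSg]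
  congr 1
  funext m
  have h2 : ∏ i ∈ S, (sy (π i) m + tr (π i) m) =
      ∑ A ∈ S.powerset, (∏ i ∈ A, sy (π i) m) * ∏ i ∈ S \ A, tr (π i) m :=
    Finset.prod_add _ _ _
  have h3 : ∏ i ∈ S, (sy (π i) m + tr (π i) m) = 2 ^ S.card * ∏ i ∈ S, hc (π i) m := by
    rw [← Finset.prod_const, ← Finset.prod_mul_distrib]
    refine Finset.prod_congr rfl fun q _ => ?_
    unfold hc
    ring
  rw [← h2, h3]


/-- the sum over the common squares -/
theorem Bw_hc {ι : Type} [DecidableEq ι] (t2 : v 2 < 1) {S : Finset ι} {c0 : ℂ}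
    {π : ι → eis} (hS : FX S π) (hv : ∀ x : eis, R4 v (F (Ω * x / ((∏ i ∈ S, π i : eis) : ℂ)) / c0) 1) :
    R4 v (Bw F Ω (∏ i ∈ S, π i) (fun m => ∏ i ∈ S, hc (π i) m) / c0)
      (∏ i ∈ S, (bt (π i) + F4.cj (bt (π i)))) := by
  have hn := prod_ne hS
  obtain ⟨s, h1, h2⟩ := card_common hS
  set n := ∏ i ∈ S, π i with hnd
  have f1 := fin_quot hn
  let _ : Fintype (eis ⧸ sp n) := Fintype.ofFinite _
  set H : eis → ℂ := fun m => ∏ i ∈ S, hc (π i) m with hH
  rw [finsum_eq_sum_of_fintype] at h2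
  have h2' : ∑ x : eis ⧸ sp n, H x.out = (s : ℂ) := h2
  have e : Bw F Ω n H / c0 = (s : ℂ) + ∑ x : eis ⧸ sp n, H x.out *
      (F (Ω * x.out / n) / c0 - 1) := by
    rw [Bw_eq, Finset.sum_div, ← h2', ← Finset.sum_add_distrib]
    refine Finset.sum_congr rfl fun x _ => ?_
    ring
  rw [e]
  have h3 : ∏ i ∈ S, (bt (π i) + F4.cj (bt (π i))) = F4.of (s : ZMod 2) := by
    rw [h1, map_prod]
    exact Finset.prod_congr rfl fun i _ => (F4.of_tr _).symm
  rw [h3]
  refine (R4_nat t2 s).congr ?_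
  rw [add_sub_cancel_left]
  refine v_sum_lt _ _ fun x _ => ?_
  rw [mul_comm]
  refine vm_lt ?_ ?_
  · have h4 := (hv x.out).add (R4.neg R4.one)
    rw [F4add_one, R4.zero_iff t2] at h4
    exact h4
  · rw [hH]
    beta_reduce
    rw [map_prod]
    refine Finset.prod_le_one' fun i _ => ?_
    rcases (hc_val (π i) x.out).1 with h | h <;> rw [h]
    · rw [map_zero]
      exact zero_le
    · rw [map_one]

/-- **the induction** -/
theorem indW {ι : Type} [DecidableEq ι] (hL : IsLat L eis Ω) (hF : FN L Ω F ε)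
    {c0 : ℂ} (hc0 : c0 ≠ 0) {S0 : Finset ι} {π : ι → eis} (hS0 : FX S0 π) (b c : ι → F4)
    (he : ∀ i ∈ S0, ∀ κ : ℂ, (κ = 1 ∨ κ = -1) →
      R4 v (((π i : ℂ) * ε (π i) - κ) / 2) (b i + F4.of (lg κ)))
    (hv : ∀ S ⊆ S0, R4 v (Bw F Ω (∏ i ∈ S, π i) (fun m => ∏ i ∈ S, hc (π i) m) / c0)
      (∏ i ∈ S, (b i + c i))) (S : Finset ι) (hSS : S ⊆ S0) :
    R4 v (Bw F Ω (∏ i ∈ S, π i) (fun m => ∏ i ∈ S, sy (π i) m) / (2 ^ S.card * c0))
      (gk c (fun i j => F4.of (mm π i j)) S) := by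
  set a : Finset ι → ℂ := fun A => Bw F Ω (∏ i ∈ A, π i) (fun m => ∏ i ∈ A, sy (π i) m) with had
  have key : ∀ S : Finset ι, S ⊆ S0 → R4 v (a S / (2 ^ S.card * c0))
      (gk c (fun i j => F4.of (mm π i j)) S) := by
    intro S
    induction S using Finset.strongInduction with
    | H S ih =>
      intro hSS
      have hS := hS0.mono hSS
      have h2 := Bw_subsets hL hF S hS
      rw [← Finset.add_sum_erase _ _ (Finset.mem_powerset_self S), Finset.sdiff_self,
        Finset.prod_empty, one_mul] at h2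
      have h3 := hv S hSS
      set Y := Bw F Ω (∏ i ∈ S, π i) (fun m => ∏ i ∈ S, hc (π i) m) with hY
      have h20 : (2 : ℂ) ^ S.card ≠ 0 := pow_ne_zero _ two_ne_zero
      set t : Finset ι → ℂ := fun A =>
        (∏ i ∈ S \ A, (((π i : ℂ) * ε (π i) - ∏ j ∈ A, sy (π j) (π i)) / 2)) *
          (a A / (2 ^ A.card * c0)) with ht
      have ht1 : ∀ A ∈ S.powerset.erase S, (∏ i ∈ S \ A, ((π i : ℂ) * ε (π i) -
          ∏ j ∈ A, sy (π j) (π i))) *
          Bw F Ω (∏ i ∈ A, π i) (fun m => ∏ i ∈ A, sy (π i) m) =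
          (2 ^ S.card * c0) * t A := by
        intro A hA
        rw [Finset.mem_erase, Finset.mem_powerset] at hA
        have hcs : S.card = (S \ A).card + A.card := (Finset.card_sdiff_add_card_eq_card hA.2).symm
        rw [ht]
        beta_reduce
        rw [Finset.prod_div_distrib, Finset.prod_const, hcs, pow_add]
        simp only [had]
        field_simp
      rw [Finset.sum_congr rfl ht1, ← Finset.mul_sum] at h2
      have h4 : a S / (2 ^ S.card * c0) =
          Y / c0 + -∑ A ∈ S.powerset.erase S, t A := by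
        have : a S = 2 ^ S.card * Y - (2 ^ S.card * c0) * ∑ A ∈ S.powerset.erase S, t A := by
          linear_combination h2
        rw [this]
        field_simp
        ring
      have h5 : gk c (fun i j => F4.of (mm π i j)) S = ∏ i ∈ S, (b i + c i) +
          ∑ A ∈ S.powerset.erase S,
          (∏ i ∈ S \ A, (b i + ∑ j ∈ A, F4.of (mm π i j))) *
            gk c (fun i j => F4.of (mm π i j)) A := by
        have h6 := rec_gen b c (fun i j => F4.of (mm π i j)) S
        rw [← Finset.add_sum_erase _ _ (Finset.mem_powerset_self S), Finset.sdiff_self,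
          Finset.prod_empty, mul_one] at h6
        rw [← h6, Finset.sum_congr rfl (fun A _ => mul_comm
          (gk c (fun i j => F4.of (mm π i j)) A) _)]
        rw [add_assoc, add_self_two, add_zero]
      rw [h4, h5]
      refine h3.add (R4.neg (R4.sum ?_))
      intro A hA
      rw [Finset.mem_erase, Finset.mem_powerset] at hA
      have hss : A ⊂ S := hA.2.ssubset_of_ne hA.1
      refine R4.mul (R4.prod fun i hi => ?_) (ih A hss (hA.2.trans hSS))
      rw [Finset.mem_sdiff] at hi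
      have h7 := sgn_prod (s := A) (f := fun j => sy (π j) (π i)) fun j hj => sy_sgn
        (hS.ne i hi.1 j (hA.2 hj) fun h => hi.2 (h ▸ hj))
      have h8 : ∑ j ∈ A, F4.of (mm π i j) = F4.of (lg (∏ j ∈ A, sy (π j) (π i))) := by
        rw [h7.2, map_sum]
        rfl
      rw [h8]
      exact he i (hSS hi.1) _ h7.1
  exact key S hSS

end Pool.Agent.L0h4.T4
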