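import Pool.Agent.L0h4.T4.Bw

/-!
# The alternating sum over the points of order two
-/

set_option autoImplicit false
set_option linter.unusedSectionVars false

open Filter
open scoped Topology PeriodPair

namespace Pool.Agent.L0h4.T4

open H667R3 Pool.Agent.W192.HK Pool.Agent.TH936.CM
open Pool.Agent.TH936.PU hiding pf
open Pool.Agent.Y696 Pool.Agent.Y715.T.Lat
open Pool.Agent.L0h86.F3 hiding Bv_eq
open Pool.Agent.Y698.SG (lg lg_one lg_neg_one lg_mul sgn_mul sgn_prod ix)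

variable {L : PeriodPair} {Ω : ℂ} {Γ : Type*} [LinearOrderedCommGroupWithZero Γ]
  {v : Valuation ℂ Γ}

/-- `χ₋₄` of the norm, on the elements `≡ 1` modulo two -/
noncomputable def ep (a : eis) : ℂ := if F4.tr (bt a) = 0 then 1 else -1

lemma ep_val (a : eis) : (F4.tr (bt a) = 0 ∧ ep a = 1) ∨ (F4.tr (bt a) = 1 ∧ ep a = -1) := by
  unfold ep
  by_cases h : F4.tr (bt a) = 0
  · left
    exact ⟨h, if_pos h⟩
  · right
    refine ⟨?_, if_neg h⟩
    revert h
    generalize F4.tr (bt a) = t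
    revert t
    decide

lemma f12_ne : (4 * la : eis) ≠ 0 := by
  have : (4 : eis) = 2 * 2 := by norm_num
  rw [this]
  exact mul_ne_zero (mul_ne_zero two_ne two_ne) la_ne

lemma four_coe : ((4 : eis) : ℂ) = 4 := rfl

lemma P1_tor (hL : IsLat L eis Ω) : Tor L (P1 Ω) := by
  have h := Tor.of hL f12_ne 1
  have e : Ω * ((1 : eis) : ℂ) / ((4 * la : eis) : ℂ) = P1 Ω := by
    unfold P1
    push_cast
    ring
  rwa [e] at h

lemma h2_tor (hL : IsLat L eis Ω) : Tor L (Ω * om / 2) := by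
  have h := Tor.of hL two_ne omr
  rwa [omr_coe, two_coe] at h

lemma h3_tor (hL : IsLat L eis Ω) : Tor L (Ω * om ^ 2 / 2) := by
  have h := Tor.of hL two_ne (omr ^ 2)
  push_cast at h
  rwa [omr_coe, two_coe] at h

/-- translation by a lattice point, in the form used -/
lemma Ev_eq (hL : IsLat L eis Ω) {z w : ℂ} (r : eis) (h : w = z + Ω * r) : Ev Ω w = Ev Ω z := by
  apply Ev_per hL
  rw [h, add_sub_cancel_left]
  exact hL.mem_mul r

lemma G1_per (hL : IsLat L eis Ω) {z w : ℂ} (h : w - z ∈ L.lattice) : G1 Ω w = G1 Ω z := by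
  unfold G1
  rw [Ev_per hL h, Ev_per hL (z := z + Ω / 2) (w := w + Ω / 2) (by convert h using 1; ring),
    Ev_per hL (z := z + Ω * om / 2) (w := w + Ω * om / 2) (by convert h using 1; ring),
    Ev_per hL (z := z + Ω * om ^ 2 / 2) (w := w + Ω * om ^ 2 / 2) (by convert h using 1; ring)]

lemma om2_eq : om ^ 2 = -1 - om := by linear_combination om_sq

/-- the four translations -/
lemma G1_s1 (hL : IsLat L eis Ω) (z : ℂ) : G1 Ω (z + Ω / 2) = G1 Ω z := by
  unfold G1
  rw [Ev_eq hL (z := z) (w := z + Ω / 2 + Ω / 2) 1 (by push_cast; ring),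
    Ev_eq hL (z := z + Ω * om ^ 2 / 2) (w := z + Ω / 2 + Ω * om / 2) (1 + omr)
      (by push_cast; rw [omr_coe, om2_eq]; ring),
    Ev_eq hL (z := z + Ω * om / 2) (w := z + Ω / 2 + Ω * om ^ 2 / 2) (-omr)
      (by push_cast; rw [omr_coe, om2_eq]; ring)]
  ring

lemma G1_s2 (hL : IsLat L eis Ω) (z : ℂ) : G1 Ω (z + Ω * om / 2) = -G1 Ω z := by
  unfold G1
  rw [Ev_eq hL (z := z + Ω * om ^ 2 / 2) (w := z + Ω * om / 2 + Ω / 2) (1 + omr)
      (by push_cast; rw [omr_coe, om2_eq]; ring),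
    Ev_eq hL (z := z) (w := z + Ω * om / 2 + Ω * om / 2) omr (by rw [omr_coe]; ring),
    Ev_eq hL (z := z + Ω / 2) (w := z + Ω * om / 2 + Ω * om ^ 2 / 2) (-1)
      (by push_cast; rw [om2_eq]; ring)]
  ring

lemma G1_s3 (hL : IsLat L eis Ω) (z : ℂ) : G1 Ω (z + Ω * (1 + om) / 2) = -G1 Ω z := by
  have e : z + Ω * (1 + om) / 2 = z + Ω / 2 + Ω * om / 2 := by ring
  rw [e, G1_s2 hL, G1_s1 hL]

/-- translation by a point of order two -/
theorem G1_shift (hL : IsLat L eis Ω) (z : ℂ) (r : eis) : G1 Ω (z + Ω * r / 2) =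
    (if F4.tr (rho r) = 0 then 1 else -1) * G1 Ω z := by
  obtain ⟨a, b, rfl⟩ := ez_ex r
  have htr : F4.tr (rho (ez a b)) = (b : ZMod 2) := by
    rw [rho_ez]
    rfl
  rw [htr]
  obtain ⟨c, hc⟩ := Int.even_or_odd' a
  obtain ⟨d, hd⟩ := Int.even_or_odd' b
  have key : ∀ (x : ℂ), z + Ω * ((ez a b : eis) : ℂ) / 2 = x + Ω * ((ez c d : eis) : ℂ) →
      G1 Ω (z + Ω * ((ez a b : eis) : ℂ) / 2) = G1 Ω x := by
    intro x hx
    apply G1_per hL
    rw [hx, add_sub_cancel_left]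
    exact hL.mem_mul _
  have t0 : ((2 : ZMod 2)) = 0 := by decide
  rcases hc with rfl | rfl <;> rcases hd with rfl | rfl
  · rw [key z (by rw [ez_coe, ez_coe]; push_cast; ring)]
    push_cast
    rw [t0, zero_mul, if_pos rfl, one_mul]
  · rw [key (z + Ω * om / 2) (by rw [ez_coe, ez_coe]; push_cast; ring), G1_s2 hL]
    push_cast
    rw [t0, zero_mul, zero_add, if_neg one_ne_zero, neg_one_mul]
  · rw [key (z + Ω / 2) (by rw [ez_coe, ez_coe]; push_cast; ring), G1_s1 hL]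
    push_cast
    rw [t0, zero_mul, if_pos rfl, one_mul]
  · rw [key (z + Ω * (1 + om) / 2) (by rw [ez_coe, ez_coe]; push_cast; ring), G1_s3 hL]
    push_cast
    rw [t0, zero_mul, zero_add, if_neg one_ne_zero, neg_one_mul]

lemma rho_la : rho la = 1 := by
  unfold la
  rw [rho_ez]
  decide

lemma bt_n1 (u : eis) : bt (1 + 2 * la * u) = rho u := by
  rw [mul_assoc, bt_eq, map_mul, rho_la, one_mul]

theorem F1_per (hL : IsLat L eis Ω) {z w : ℂ} (h : w - z ∈ L.lattice) : F1v Ω w = F1v Ω z := by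
  unfold F1v
  apply G1_per hL
  convert h using 1
  ring

/-- the distribution relation -/
theorem F1_dist (hL : IsLat L eis Ω) {a : eis} (ha : a ≠ 0) (h1 : N1 a) [Fintype (eis ⧸ sp a)]
    {z : ℂ} (hz : Tor L z) :
    ∑ q : eis ⧸ sp a, F1v Ω (z + Ω * q.out / a) = a * ep a * F1v Ω (a * z) := by
  have hy := (P1_tor hL).add hL hz
  set y := P1 Ω + z with hy0
  have d0 := Ev_dist hL ha hy
  have d1 := Ev_dist hL ha (hy.add hL (half_tor hL))
  have d2 := Ev_dist hL ha (hy.add hL (h2_tor hL))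
  have d3 := Ev_dist hL ha (hy.add hL (h3_tor hL))
  have e0 : ∑ q : eis ⧸ sp a, F1v Ω (z + Ω * q.out / a) =
      a * Ev Ω (a * y) + a * Ev Ω (a * (y + Ω / 2)) - a * Ev Ω (a * (y + Ω * om / 2)) -
        a * Ev Ω (a * (y + Ω * om ^ 2 / 2)) := by
    rw [← d0, ← d1, ← d2, ← d3, ← Finset.sum_add_distrib, ← Finset.sum_sub_distrib,
      ← Finset.sum_sub_distrib]
    refine Finset.sum_congr rfl fun q _ => ?_
    unfold F1v G1
    rw [hy0]
    congr 1
    · congr 1
      · congr 1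
        · congr 1
          ring
        · congr 1
          ring
      · congr 1
        ring
    · congr 1
      ring
  rw [e0]
  obtain ⟨u, rfl⟩ := h1
  have hla : ((4 * la : eis) : ℂ) ≠ 0 := coe_ne f12_ne
  have hla' : (la : ℂ) ≠ 0 := coe_ne la_ne
  set a : eis := 1 + 2 * la * u with ha'
  have hac : (a : ℂ) = 1 + 2 * ((la * u : eis) : ℂ) := by
    rw [ha']
    push_cast
    rw [two_coe]
    ring
  have f1 : Ev Ω (a * (y + Ω / 2)) = Ev Ω (a * y + Ω / 2) :=
    Ev_eq hL (la * u) (by rw [hac]; ring)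
  have f2 : Ev Ω (a * (y + Ω * om / 2)) = Ev Ω (a * y + Ω * om / 2) :=
    Ev_eq hL (la * u * omr) (by rw [hac]; push_cast; rw [omr_coe]; ring)
  have f3 : Ev Ω (a * (y + Ω * om ^ 2 / 2)) = Ev Ω (a * y + Ω * om ^ 2 / 2) :=
    Ev_eq hL (la * u * omr ^ 2) (by rw [hac]; push_cast; rw [omr_coe]; ring)
  rw [f1, f2, f3]
  have g1 : G1 Ω (a * y) = ep a * F1v Ω (a * z) := by
    have e1 : (a : ℂ) * y = (P1 Ω + a * z) + Ω * u / 2 := by
      rw [hy0, hac]
      unfold P1
      push_cast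
      rw [four_coe]
      field_simp
      ring
    rw [e1, G1_shift hL]
    unfold ep F1v
    rw [ha', bt_n1]
  calc _ = (a : ℂ) * G1 Ω (a * y) := by
        unfold G1
        ring
    _ = _ := by
        rw [g1]
        ring

/-- the function satisfies the assumptions of the induction -/
theorem F1_FN (hL : IsLat L eis Ω) : FN L Ω (F1v Ω) ep :=
  ⟨fun h => F1_per hL h, fun ha h1 _ _ hz => F1_dist hL ha h1 hz⟩

/-- the Euler factors -/
theorem R4_ep {ϖ : eis} (h : PX ϖ) {κ : ℂ} (hκ : κ = 1 ∨ κ = -1) :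
    R4 v (((ϖ : ℂ) * ep ϖ - κ) / 2) (F4.cj (bt ϖ) + F4.of (lg κ)) := by
  have hcj : F4.cj (bt ϖ) = bt ϖ + F4.of (F4.tr (bt ϖ)) := by
    generalize bt ϖ = t
    revert t
    decide
  rcases ep_val ϖ with ⟨h1, h2⟩ | ⟨h1, h2⟩
  · rw [hcj, h1, h2, map_zero, add_zero, mul_one]
    exact R4_euler h hκ
  · have h3 : ((-κ = 1) ∨ (-κ = -1)) := by
      rcases hκ with rfl | rfl
      · right; rfl
      · left; norm_num
    have h4 := (R4_euler (v := v) h h3).neg
    have e : ((ϖ : ℂ) * ep ϖ - κ) / 2 = -(((ϖ : ℂ) - -κ) / 2) := by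
      rw [h2]
      ring
    have e2 : F4.cj (bt ϖ) + F4.of (lg κ) = bt ϖ + F4.of (lg (-κ)) := by
      rw [hcj, h1, map_one]
      rcases hκ with rfl | rfl
      · rw [lg_neg_one, lg_one, map_one, map_zero, add_zero]
      · rw [neg_neg, lg_neg_one, lg_one, map_one, map_zero, add_zero, add_assoc]
        have : (1 + 1 : F4) = 0 := by decide
        rw [this, add_zero]
    rw [e, e2]
    exact h4

end Pool.Agent.L0h4.T4
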