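import Pool.Agent.L0h4.T4.Ps4

/-!
# The Hecke characters of conductor `8 √-3`
-/

set_option autoImplicit false
set_option linter.unusedSectionVars false

open Filter
open scoped Topology PeriodPair

namespace Pool.Agent.L0h4.T4

open H667R3 Pool.Agent.W192.HK Pool.Agent.TH936.CM
open Pool.Agent.TH936.PU hiding pf
open Pool.Agent.Y696 Pool.Agent.Y715.T.Lat
open Pool.Agent.L0h86.F3 hiding Bv_eq unit_mod6
open Pool.Agent.L0h4.T3 (exists_prim6 psi6_zero_iff psi6_prim t_PSI la_prime two_factor prim6_ne)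

/-- a character modulo eight of the norm -/
noncomputable def c8I (χ : MulChar (ZMod 8) ℤ) (J : Ideal eis) : ℂ :=
  ((χ (Nat.card (eis ⧸ J) : ZMod 8) : ℤ) : ℂ)

lemma c8I_mul (χ : MulChar (ZMod 8) ℤ) (I J : Ideal eis) :
    c8I χ (I * J) = c8I χ I * c8I χ J := by
  unfold c8I
  rw [nat_card_mul]
  push_cast
  rw [map_mul]
  push_cast
  ring

/-- the characters used -/
structure X8 (χ : MulChar (ZMod 8) ℤ) : Prop where
  one : χ 1 = 1
  five : χ 5 = -1
  sq : ∀ a : ZMod 8, a = 1 ∨ a = 3 ∨ a = 5 ∨ a = 7 → χ a = 1 ∨ χ a = -1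

lemma x8_one : X8 ZMod.χ₈ := ⟨by decide, by decide, by decide⟩

lemma x8_two : X8 ZMod.χ₈' := ⟨by decide, by decide, by decide⟩

lemma f24_ne : (8 * la : eis) ≠ 0 := by
  have : (8 : eis) = 2 * 4 := by norm_num
  rw [this, mul_assoc]
  exact mul_ne_zero two_ne f12_ne

lemma eight_coe : ((8 : eis) : ℂ) = 8 := rfl

lemma cop_eight {I : Ideal eis} : IsCoprime I (sp (8 * la : eis)) ↔ IsCoprime I (sp (2 * la : eis)) := by
  rw [← cop_four]
  obtain ⟨x, rfl⟩ : ∃ x : eis, I = sp x :=
    ⟨_, (Submodule.IsPrincipal.span_singleton_generator I).symm⟩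
  rw [Ideal.isCoprime_span_singleton_iff, Ideal.isCoprime_span_singleton_iff]
  constructor
  · intro h
    rw [show (8 * la : eis) = 2 * (4 * la) by ring] at h
    exact h.of_mul_right_right
  · intro h
    have e4 : (8 * la : eis) = 2 * (4 * la) := by ring
    have h2 : IsCoprime x (4 * la) := h
    rw [show (4 * la : eis) = 2 * (2 * la) by ring] at h2
    rw [e4]
    exact h2.of_mul_right_left.mul_right h

/-- the norm of an odd element is odd -/
lemma card_odd (a b : ℤ) : ((Nat.card (eis ⧸ (sp (1 + 2 * ez a b) : Ideal eis)) : ℕ) : ZMod 8) =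
    ((1 + 4 * a + 4 * a ^ 2 - 2 * b - 4 * a * b + 4 * b ^ 2 : ℤ) : ZMod 8) := by
  have h1 := card_half a b
  rw [← h1]
  push_cast
  rfl

lemma c8_val {χ : MulChar (ZMod 8) ℤ} (hχ : X8 χ) (u : eis) :
    c8I χ (sp (1 + 2 * la * u)) = 1 ∨ c8I χ (sp (1 + 2 * la * u)) = -1 := by
  obtain ⟨a, b, hab⟩ := ez_ex (la * u)
  have e : (1 + 2 * la * u : eis) = 1 + 2 * ez a b := by rw [← hab]; ring
  rw [e]
  unfold c8I
  rw [card_odd]
  have h8 : ∀ n : ℤ, ((1 + 2 * n : ℤ) : ZMod 8) = 1 ∨ ((1 + 2 * n : ℤ) : ZMod 8) = 3 ∨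
      ((1 + 2 * n : ℤ) : ZMod 8) = 5 ∨ ((1 + 2 * n : ℤ) : ZMod 8) = 7 := by
    intro n
    push_cast
    generalize (n : ZMod 8) = t
    revert t
    decide
  have e2 : (1 + 4 * a + 4 * a ^ 2 - 2 * b - 4 * a * b + 4 * b ^ 2 : ℤ) =
      1 + 2 * (2 * a + 2 * a ^ 2 - b - 2 * a * b + 2 * b ^ 2) := by ring
  rw [e2]
  rcases hχ.sq _ (h8 _) with h | h
  · left
    rw [h]
    norm_num
  · right
    rw [h]
    norm_num

lemma c8_ne {χ : MulChar (ZMod 8) ℤ} (hχ : X8 χ) (u : eis) :
    c8I χ (sp (1 + 2 * la * u)) ≠ 0 := by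
  rcases c8_val hχ u with h | h <;> rw [h] <;> norm_num

/-- the divisors -/
lemma dvd_eight_la {d : eis} (h : d ∣ 8 * la) (hn : ¬ (8 * la : eis) ∣ d) : d ∣ 4 * la ∨ d ∣ 8 := by
  obtain ⟨e, he⟩ := h
  have he0 : e ≠ 0 := by
    rintro rfl
    rw [mul_zero] at he
    exact f24_ne he
  have heu : ¬ IsUnit e := by
    intro hu
    apply hn
    obtain ⟨w, hw⟩ := hu.exists_right_inv
    exact ⟨w, by rw [he, mul_assoc, hw, mul_one]⟩
  obtain ⟨i, hi, hie⟩ := WfDvdMonoid.exists_irreducible_factor heu he0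
  have hip : Prime i := hi.prime
  have h1 : i ∣ 2 * (2 * (2 * la)) := by
    have : (2 * (2 * (2 * la)) : eis) = d * e := by rw [← he]; ring
    rw [this]
    exact Dvd.dvd.mul_left hie d
  have two : i ∣ 2 → d ∣ 4 * la := by
    rintro ⟨x, hx⟩
    have h3 : IsUnit x := (two_factor hx).resolve_left hi.not_isUnit
    obtain ⟨w, hw⟩ := h3.exists_right_inv
    obtain ⟨y, hy⟩ := hie
    refine ⟨w * y, ?_⟩
    apply mul_left_cancel₀ two_ne
    have e2 : (2 : eis) * w = i := by rw [hx, mul_assoc, hw, mul_one]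
    calc (2 : eis) * (4 * la) = d * e := by rw [← he]; ring
      _ = d * (i * y) := by rw [hy]
      _ = d * ((2 * w) * y) := by rw [e2]
      _ = 2 * (d * (w * y)) := by ring
  rcases hip.dvd_or_dvd h1 with h2 | h2
  · exact Or.inl (two h2)
  rcases hip.dvd_or_dvd h2 with h2 | h2
  · exact Or.inl (two h2)
  rcases hip.dvd_or_dvd h2 with h2 | h2
  · exact Or.inl (two h2)
  · right
    obtain ⟨x, hx⟩ := h2
    have h3 : IsUnit x := (la_prime.irreducible.isUnit_or_isUnit hx).resolve_left hi.not_isUnit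
    obtain ⟨w, hw⟩ := h3.exists_right_inv
    obtain ⟨y, hy⟩ := hie
    refine ⟨w * y, ?_⟩
    apply mul_left_cancel₀ la_ne
    have e2 : (la : eis) * w = i := by rw [hx, mul_assoc, hw, mul_one]
    calc (la : eis) * 8 = d * e := by rw [← he]; ring
      _ = d * (i * y) := by rw [hy]
      _ = d * ((la * w) * y) := by rw [e2]
      _ = la * (d * (w * y)) := by ring

/-- **the Hecke characters** -/
theorem t_PS8 {χ : MulChar (ZMod 8) ℤ} (hχ : X8 χ) :
    HC 1 (sp (8 * la : eis)) fun J => psi6 J * c8I χ J := by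
  have hP := t_PSI
  refine ⟨?_, ?_, ?_, ?_, ?_⟩
  · rw [Ne, Ideal.span_singleton_eq_bot]
    exact f24_ne
  · intro I J
    rw [hP.mul, c8I_mul]
    ring
  · intro I
    rw [cop_eight, ← hP.zero]
    constructor
    · intro h
      rcases mul_eq_zero.1 h with h1 | h1
      · exact h1
      · by_contra h2
        rw [psi6_zero_iff, not_not] at h2
        obtain ⟨α, rfl, hα⟩ := exists_prim6 h2
        obtain ⟨u, rfl⟩ := n1_of hα
        exact c8_ne hχ _ h1
    · intro h
      rw [h, zero_mul]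
  · intro α _ hα
    rw [Ideal.mem_span_singleton'] at hα
    obtain ⟨t, ht⟩ := hα
    have e : α = 1 + 2 * la * (4 * t) := by linear_combination -ht
    have h0 := psi6_n1 t_PSI (x := 1 + 2 * la * (4 * t)) ⟨_, rfl⟩ (n1_ne _)
    have h1 : c8I χ (sp (1 + 2 * la * (4 * t))) = 1 := by
      obtain ⟨a, b, hab⟩ := ez_ex (la * t)
      have e4 : (4 : eis) = ez 4 0 := by
        rw [ez_int]
        norm_num
      have e2 : (1 + 2 * la * (4 * t) : eis) = 1 + 2 * ez (4 * a) (4 * b) := by
        have : (4 : eis) * ez a b = ez (4 * a) (4 * b) := by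
          rw [e4, ez_mul]
          congr 1 <;> ring
        rw [← this, ← hab]
        ring
      rw [e2]
      unfold c8I
      rw [card_odd]
      have e5 : ((1 + 4 * (4 * a) + 4 * (4 * a) ^ 2 - 2 * (4 * b) - 4 * (4 * a) * (4 * b) +
          4 * (4 * b) ^ 2 : ℤ) : ZMod 8) = 1 := by
        have : (1 + 4 * (4 * a) + 4 * (4 * a) ^ 2 - 2 * (4 * b) - 4 * (4 * a) * (4 * b) +
          4 * (4 * b) ^ 2 : ℤ) = 1 + 8 * (2 * a + 8 * a ^ 2 - b - 8 * a * b + 8 * b ^ 2) := by ring
        rw [this]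
        push_cast
        have h8 : (8 : ZMod 8) = 0 := by decide
        rw [h8]
        ring
      rw [e5, hχ.one]
      norm_num
    rw [pow_one, e, h0, h1, mul_one]
  · intro q' hq'
    obtain ⟨d, rfl⟩ : ∃ d : eis, q' = sp d :=
      ⟨_, (Submodule.IsPrincipal.span_singleton_generator q').symm⟩
    have h1 : d ∣ 8 * la := Ideal.span_singleton_le_span_singleton.1 hq'.le
    have h2 : ¬ (8 * la : eis) ∣ d := fun h => by
      have := Ideal.span_singleton_le_span_singleton.2 h
      exact absurd (le_antisymm hq'.le this) hq'.ne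
    have key : ∀ α : eis, α ≠ 0 → d ∣ α - 1 → IsCoprime α (2 * la) →
        psi6 (sp α) * c8I χ (sp α) = -(α : ℂ) →
        ∃ α : eis, α ≠ 0 ∧ α - 1 ∈ (sp d : Ideal eis) ∧ IsCoprime (sp α) (sp (8 * la)) ∧
          psi6 (sp α) * c8I χ (sp α) ≠ (α : ℂ) ^ 1 := by
      intro α h0 hd hc hval
      refine ⟨α, h0, Ideal.mem_span_singleton.2 hd, ?_, ?_⟩
      · rw [cop_eight, Ideal.isCoprime_span_singleton_iff]
        exact hc
      · rw [hval, pow_one]
        intro h
        have h3 : (α : ℂ) = 0 := by linear_combination -h / 2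
        exact coe_ne h0 h3
    rcases dvd_eight_la h1 h2 with h | h
    · have e1 : (1 + 2 * la * (2 * omr) : eis) = 1 + 2 * ez (-4) (-2) := by
        have : (la * (2 * omr) : eis) = ez (-4) (-2) := by
          unfold la ez
          push_cast
          linear_combination (4 : eis) * omr_sq
        rw [← this]
        ring
      refine key (1 + 2 * la * (2 * omr)) (n1_ne _) (h.trans ⟨omr, by ring⟩)
        ⟨1, -(2 * omr), by ring⟩ ?_
      rw [psi6_n1 t_PSI ⟨_, rfl⟩ (n1_ne _)]
      have h3 : c8I χ (sp (1 + 2 * la * (2 * omr))) = -1 := by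
        rw [e1]
        unfold c8I
        rw [card_odd]
        have e5 : ((1 + 4 * (-4) + 4 * (-4) ^ 2 - 2 * (-2) - 4 * (-4) * (-2) + 4 * (-2) ^ 2 : ℤ) :
            ZMod 8) = 5 := by decide
        rw [e5, hχ.five]
        norm_num
      rw [h3]
      ring
    · have hla := la_sq
      have h17 : (-1 : eis) * (1 + 2 * la * (3 * la)) = 17 := by
        linear_combination (-6) * hla
      have e17 : (1 + 2 * la * (3 * la) : eis) = 1 + 2 * ez (-9) 0 := by
        have : ez (-9) 0 = (-9 : eis) := by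
          rw [ez_int]
          norm_num
        rw [this]
        linear_combination 6 * hla
      refine key 17 ?_ (h.trans ⟨2, by norm_num⟩) ⟨-1, -(3 * la), ?_⟩ ?_
      · intro h0
        have := congrArg (fun t : eis => (t : ℂ)) h0
        have e : ((17 : eis) : ℂ) = 17 := rfl
        simp only [e] at this
        norm_num at this
      · linear_combination (-6) * hla
      · have hu : IsUnit (-1 : eis) := isUnit_one.neg
        have e6 : sp (17 : eis) = sp (1 + 2 * la * (3 * la)) := by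
          rw [← h17]
          exact Ideal.span_singleton_mul_left_unit hu _
        rw [e6, psi6_n1 t_PSI ⟨_, rfl⟩ (n1_ne _)]
        have h7 : c8I χ (sp (1 + 2 * la * (3 * la))) = 1 := by
          rw [e17]
          unfold c8I
          rw [card_odd]
          have e5 : ((1 + 4 * (-9) + 4 * (-9) ^ 2 - 2 * 0 - 4 * (-9) * 0 + 4 * 0 ^ 2 : ℤ) :
              ZMod 8) = 1 := by decide
          rw [e5, hχ.one]
          norm_num
        rw [h7, mul_one, ← h17]
        push_cast
        ring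

end Pool.Agent.L0h4.T4
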