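import Pool.Agent.L0h4.T4.Fn

/-!
# The central values of the `L`-series of `y² = x³ - D³`
-/

set_option autoImplicit false
set_option linter.unusedSectionVars false

open Filter
open scoped Topology PeriodPair

namespace Pool.Agent.L0h4.T4

open H667R3 Pool.Agent.W192.HK Pool.Agent.TH936.CM
open Pool.Agent.TH936.PU hiding pf
open Pool.Agent.W192.CM (nu)
open Pool.Agent.Y696 Pool.Agent.Y715.T.Lat Pool.Agent.Y715.Dist
open Pool.Agent.Y715.T.LF (nu_eq)
open Pool.Agent.Y715.T.Three (lam lam_ne' lam_sq)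
open Pool.Agent.L0h86.F3 hiding Bv_eq
open Pool.Agent.Y698.SG (lg lg_one lg_neg_one lg_mul sgn_mul sgn_prod ix)

variable {L : PeriodPair} {Ω : ℂ} {Γ : Type*} [LinearOrderedCommGroupWithZero Γ]
  {v : Valuation ℂ Γ}

/-! ### sums over the residue classes modulo two and modulo `4√-3` -/

lemma mem_two {a b : ℤ} : ez a b ∈ (sp 2 : Ideal eis) ↔ 2 ∣ a ∧ 2 ∣ b := by
  have e2 : (2 : eis) = ez 2 0 := by
    rw [ez_int]
    norm_num
  rw [Ideal.mem_span_singleton']
  constructor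
  · rintro ⟨t, ht⟩
    obtain ⟨x, y, rfl⟩ := ez_ex t
    rw [e2, ez_mul] at ht
    obtain ⟨h1, h2⟩ := ez_inj ht
    omega
  · rintro ⟨⟨c, hc⟩, ⟨d, hd⟩⟩
    refine ⟨ez c d, ?_⟩
    rw [e2, ez_mul, hc, hd]
    congr 1 <;> ring

/-- representatives modulo two -/
noncomputable def r2 : Fin 2 × Fin 2 → eis := fun p => ez (p.1 : ℕ) (p.2 : ℕ)

lemma r2_bij : Function.Bijective fun p : Fin 2 × Fin 2 =>
    Ideal.Quotient.mk (sp 2 : Ideal eis) (r2 p) := by
  constructor
  · rintro ⟨a, b⟩ ⟨c, d⟩ h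
    have h1 : r2 (a, b) - r2 (c, d) ∈ (sp 2 : Ideal eis) := by
      rw [← Ideal.Quotient.mk_eq_mk_iff_sub_mem]
      exact h
    unfold r2 at h1
    rw [ez_sub, mem_two] at h1
    simp only [Prod.mk.injEq]
    obtain ⟨h2, h3⟩ := h1
    have h2' : (2 : ℤ) ∣ ((a : ℕ) : ℤ) - ((c : ℕ) : ℤ) := h2
    have h3' : (2 : ℤ) ∣ ((b : ℕ) : ℤ) - ((d : ℕ) : ℤ) := h3
    constructor
    · apply Fin.ext
      have := a.2
      have := c.2
      omega
    · apply Fin.ext
      have := b.2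
      have := d.2
      omega
  · intro q
    obtain ⟨x, rfl⟩ := Ideal.Quotient.mk_surjective q
    obtain ⟨a, b, rfl⟩ := ez_ex x
    refine ⟨(⟨(a % 2).toNat, by omega⟩, ⟨(b % 2).toNat, by omega⟩), ?_⟩
    show Ideal.Quotient.mk (sp 2 : Ideal eis) (r2 _) = Ideal.Quotient.mk (sp 2 : Ideal eis) _
    rw [Ideal.Quotient.mk_eq_mk_iff_sub_mem]
    unfold r2
    rw [ez_sub, mem_two]
    constructor
    · show (2 : ℤ) ∣ (((a % 2).toNat : ℕ) : ℤ) - a
      omega
    · show (2 : ℤ) ∣ (((b % 2).toNat : ℕ) : ℤ) - b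
      omega

lemma sum_two (F : eis → ℂ) (hF : ∀ x y : eis, x - y ∈ (sp 2 : Ideal eis) → F x = F y)
    [Fintype (eis ⧸ (sp 2 : Ideal eis))] :
    ∑ t : eis ⧸ (sp 2 : Ideal eis), F t.out = F 0 + F 1 + F omr + F (1 + omr) := by
  rw [sum_rep r2 r2_bij F hF, Fintype.sum_prod_type]
  simp only [Fin.sum_univ_two]
  have e1 : r2 (0, 0) = 0 := by
    unfold r2
    exact ez_zero
  have e2 : r2 (1, 0) = 1 := by
    unfold r2
    exact ez_one
  have e3 : r2 (0, 1) = omr := by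
    unfold r2
    exact ez_omr
  have e4 : r2 (1, 1) = 1 + omr := by
    unfold r2 ez
    push_cast
    simp
  rw [e1, e2, e3, e4]
  ring

lemma unit_bij {I : Ideal eis} {u : eis} (hu : IsUnit u) :
    Function.Bijective fun t : eis ⧸ I => Ideal.Quotient.mk I (u * t.out) := by
  obtain ⟨g, hg⟩ := hu.map (Ideal.Quotient.mk I)
  have e1 : (fun t : eis ⧸ I => Ideal.Quotient.mk I (u * t.out)) =
      fun t => (g : eis ⧸ I) * t := by
    funext t
    rw [map_mul, Ideal.Quotient.mk_out, hg]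
  rw [e1]
  exact (Units.mulLeft g).bijective

/-- one class modulo `2√-3` -/
noncomputable def bk (F : eis → ℂ) (u : eis) : ℂ :=
  F (u * (1 + 2 * la * 0)) + F (u * (1 + 2 * la * 1)) + F (u * (1 + 2 * la * omr)) +
    F (u * (1 + 2 * la * (1 + omr)))

/-- the sum modulo `4√-3` -/
theorem sum_f12 (F : eis → ℂ) (hF0 : ∀ x, ¬ IsCoprime x (2 * la) → F x = 0)
    (hper : ∀ x y : eis, x - y ∈ (sp (4 * la) : Ideal eis) → F x = F y)
    [Fintype (eis ⧸ (sp (4 * la) : Ideal eis))] :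
    ∑ y : eis ⧸ (sp (4 * la) : Ideal eis), F y.out =
      bk F 1 + bk F (-1) + bk F omr + bk F (-omr) + bk F (omr ^ 2) + bk F (-omr ^ 2) := by
  have f1 := fin_quot f6_ne
  have f2 := fin_quot two_ne
  let _ : Fintype (eis ⧸ (sp (2 * la) : Ideal eis)) := Fintype.ofFinite _
  let _ : Fintype (eis ⧸ (sp 2 : Ideal eis)) := Fintype.ofFinite _
  have hb := bij_mul (R := eis) (a := 2) (f := 2 * la) f6_ne
  have e4 : (4 * la : eis) = 2 * (2 * la) := by ring
  have e4' : (sp (4 * la) : Ideal eis) = sp (2 * (2 * la)) := by rw [e4]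
  have hb' : Function.Bijective (fun p : (eis ⧸ (sp (2 * la) : Ideal eis)) ×
      (eis ⧸ (sp 2 : Ideal eis)) =>
      Ideal.Quotient.mk (sp (4 * la) : Ideal eis) (p.1.out + 2 * la * p.2.out)) := by
    rw [e4']
    exact hb
  rw [sum_rep _ hb' F hper, Fintype.sum_prod_type]
  set G : eis → ℂ := fun x => ∑ t : eis ⧸ (sp 2 : Ideal eis), F (x + 2 * la * t.out) with hG
  have hGper : ∀ x y : eis, x - y ∈ (sp (2 * la) : Ideal eis) → G x = G y := by
    intro x y hxy
    rw [Ideal.mem_span_singleton'] at hxy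
    obtain ⟨s, hs⟩ := hxy
    have hx : x = y + s * (2 * la) := by linear_combination -hs
    rw [hG]
    beta_reduce
    have hg : Function.Bijective (fun t : eis ⧸ (sp 2 : Ideal eis) =>
        Ideal.Quotient.mk (sp 2 : Ideal eis) (s + t.out)) := by
      have e1 : (fun t : eis ⧸ (sp 2 : Ideal eis) => Ideal.Quotient.mk (sp 2) (s + t.out)) =
          fun t => (Equiv.addLeft (Ideal.Quotient.mk (sp 2) s)) t := by
        funext t
        rw [map_add, Ideal.Quotient.mk_out]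
        rfl
      rw [e1]
      exact (Equiv.addLeft _).bijective
    rw [sum_rep (I := (sp 2 : Ideal eis)) (fun t : eis ⧸ (sp 2 : Ideal eis) => s + t.out) hg
      (fun r => F (y + 2 * la * r))]
    · refine Finset.sum_congr rfl fun t _ => ?_
      congr 1
      rw [hx]
      ring
    · intro a b hab
      apply hper
      rw [Ideal.mem_span_singleton'] at hab ⊢
      obtain ⟨r, hr⟩ := hab
      exact ⟨r, by linear_combination 2 * la * hr⟩
  have hG0 : ∀ x, ¬ IsCoprime x (2 * la) → G x = 0 := by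
    intro x hx
    rw [hG]
    refine Finset.sum_eq_zero fun t _ => hF0 _ fun h => hx ?_
    obtain ⟨a, b, hab⟩ := h
    exact ⟨a, b + a * t.out, by linear_combination hab⟩
  have h6 := six_sum6 G hG0 hGper
  rw [show ∑ x : eis ⧸ (sp (2 * la) : Ideal eis), ∑ y : eis ⧸ (sp 2 : Ideal eis),
    F (x.out + 2 * la * y.out) = ∑ y : eis ⧸ (sp (2 * la) : Ideal eis), G y.out from rfl, h6]
  have hu : ∀ u : eis, IsUnit u → G u = bk F u := by
    intro u hu
    rw [hG]
    beta_reduce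
    rw [sum_rep (I := (sp 2 : Ideal eis)) (fun t : eis ⧸ (sp 2 : Ideal eis) => u * t.out)
      (unit_bij hu) (fun r => F (u + 2 * la * r))]
    · have h7 := sum_two (fun t => F (u + 2 * la * (u * t))) (by
        intro a b hab
        apply hper
        rw [Ideal.mem_span_singleton'] at hab ⊢
        obtain ⟨r, hr⟩ := hab
        exact ⟨u * r, by linear_combination 2 * la * u * hr⟩)
      rw [h7]
      unfold bk
      congr 1
      · congr 1
        · congr 1
          · congr 1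
            ring
          · congr 1
            ring
        · congr 1
          ring
      · congr 1
        ring
    · intro a b hab
      apply hper
      rw [Ideal.mem_span_singleton'] at hab ⊢
      obtain ⟨r, hr⟩ := hab
      exact ⟨r, by linear_combination 2 * la * hr⟩
  rw [hu 1 isUnit_one, hu (-1) isUnit_one.neg, hu (omr ^ 2) (omr_unit.pow 2),
    hu (-omr ^ 2) (omr_unit.pow 2).neg, hu omr omr_unit, hu (-omr) omr_unit.neg]

/-! ### the finite part -/

lemma c4I_n1 (u : eis) : c4I (sp (1 + 2 * la * u)) = ep (1 + 2 * la * u) := by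
  obtain ⟨a, b, hab⟩ := ez_ex (la * u)
  have e : (1 + 2 * la * u : eis) = 1 + 2 * ez a b := by rw [← hab]; ring
  rw [e]
  unfold c4I ep
  have h1 := card_half a b
  have htr : F4.tr (bt (1 + 2 * ez a b)) = (b : ZMod 2) := by
    rw [bt_ez]
    rfl
  rw [htr]
  set N := Nat.card (eis ⧸ (sp (1 + 2 * ez a b) : Ideal eis)) with hN
  have h2 : ((N : ℕ) : ZMod 4) = ((N % 4 : ℕ) : ZMod 4) := (ZMod.natCast_mod N 4).symm
  rcases Int.even_or_odd' b with ⟨d, hd | hd⟩
  · have h3 : N % 4 = 1 := by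
      have : (N : ℤ) = 1 + 4 * (a + a ^ 2 - d - 2 * a * d + 4 * d ^ 2) := by
        rw [h1, hd]
        ring
      omega
    have h4 : ((b : ℤ) : ZMod 2) = 0 := by
      rw [ZMod.intCast_zmod_eq_zero_iff_dvd]
      exact ⟨d, by push_cast; exact hd⟩
    rw [if_pos h4, h2, h3]
    have : ZMod.χ₄ ((1 : ℕ) : ZMod 4) = 1 := by decide
    rw [this]
    norm_num
  · have h3 : N % 4 = 3 := by
      have : (N : ℤ) = 3 + 4 * (a + a ^ 2 - d - a * (2 * d + 1) + (2 * d + 1) ^ 2 - 1) := by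
        rw [h1, hd]
        ring
      omega
    have h4 : ¬ ((b : ℤ) : ZMod 2) = 0 := by
      rw [ZMod.intCast_zmod_eq_zero_iff_dvd]
      rintro ⟨c, hc⟩
      push_cast at hc
      omega
    rw [if_neg h4, h2, h3]
    have : ZMod.χ₄ ((3 : ℕ) : ZMod 4) = -1 := by decide
    rw [this]
    norm_num

lemma psi6_n1 (hpsi : S_PSI) {x : eis} (h : N1 x) (hx : x ≠ 0) : psi6 (sp x) = x := by
  obtain ⟨u, rfl⟩ := h
  have h1 := hpsi.princ (1 + 2 * la * u) hx (by
    rw [Ideal.mem_span_singleton']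
    exact ⟨u, by ring⟩)
  rw [h1, pow_one]

lemma n1_ne (u : eis) : (1 + 2 * la * u : eis) ≠ 0 := by
  intro h
  apply two_nu
  rw [isUnit_iff_dvd_one]
  exact ⟨-(la * u), by linear_combination h⟩

section

variable {ψ : Ideal eis → ℂ} (hψe : ψ = fun J => psi6 J * c4I J) (hpsi : S_PSI)

include hψe hpsi

lemma psi_n1 {m : eis} (hm : N1 m) {w : eis} (hw : IsUnit w) :
    ψ (sp (w * m)) = m * ep m := by
  obtain ⟨u, rfl⟩ := hm
  have e : sp (w * (1 + 2 * la * u)) = sp (1 + 2 * la * u) := Ideal.span_singleton_mul_left_unit hw _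
  rw [e, hψe]
  beta_reduce
  rw [psi6_n1 hpsi ⟨u, rfl⟩ (n1_ne u), c4I_n1]

lemma ep_conj (a : eis) : (starRingEnd ℂ) (ep a) = ep a := by
  rcases ep_val a with ⟨-, h⟩ | ⟨-, h⟩ <;> rw [h] <;> simp

lemma ee_n1 {m : eis} (hm : N1 m) {w : eis} (hw : IsUnit w) : ee ψ (w * m) = w * ep m := by
  have hm0 : m ≠ 0 := by
    obtain ⟨u, rfl⟩ := hm
    exact n1_ne u
  have h0 : (m : ℂ) ≠ 0 := coe_ne hm0
  have hw0 : (w : ℂ) ≠ 0 := coe_ne hw.ne_zero
  unfold ee fp
  rw [psi_n1 hψe hpsi hm hw, pow_one]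
  push_cast
  have e : (m : ℂ) * ep m / (w * m) = (w : ℂ)⁻¹ * ep m := by field_simp
  rw [e, map_mul, ep_conj hψe hpsi]
  congr 1
  have h1 : Complex.normSq (w : ℂ) = 1 := (isUnit_iff' w).1 hw
  have h2 : (w : ℂ) * (starRingEnd ℂ) (w : ℂ) = 1 := by
    rw [Complex.mul_conj, h1, Complex.ofReal_one]
  rw [map_inv₀]
  exact inv_eq_of_mul_eq_one_left h2

lemma ee_ncop4 (hψ : HC 1 (sp (4 * la : eis)) ψ) {x : eis} (hx : ¬ IsCoprime x (2 * la)) :
    ee ψ x = 0 := by
  have h : ψ (sp x) = 0 := by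
    rw [hψ.zero]
    right
    rw [Ideal.isCoprime_span_singleton_iff]
    intro h
    apply hx
    obtain ⟨a, b, hab⟩ := h
    exact ⟨a, 2 * b, by linear_combination hab⟩
  unfold ee fp
  rw [h, zero_div, map_zero]

/-- one unit -/
lemma bk_ee (hL : IsLat L eis Ω) {z : ℂ} (hz : Tor L z) {u w : eis} (hwu : w * u = 1) :
    bk (fun y => ee ψ y * Ev Ω (Ω * y / ((4 * la : eis) : ℂ) + z)) u = F1v Ω (w * z) := by
  have hu : IsUnit u := IsUnit.of_mul_eq_one w (by rw [mul_comm]; exact hwu)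
  have hwu' : (w : ℂ) * u = 1 := by
    have := congrArg (fun t : eis => (t : ℂ)) hwu
    push_cast at this
    exact this
  have hu0 : (u : ℂ) ≠ 0 := coe_ne hu.ne_zero
  have hla' : (la : ℂ) ≠ 0 := coe_ne la_ne
  have key : ∀ s : eis, ee ψ (u * (1 + 2 * la * s)) *
      Ev Ω (Ω * ((u * (1 + 2 * la * s) : eis) : ℂ) / ((4 * la : eis) : ℂ) + z) =
      ep (1 + 2 * la * s) * Ev Ω (P1 Ω + w * z + Ω * s / 2) := by
    intro s
    rw [ee_n1 hψe hpsi ⟨s, rfl⟩ hu]
    have e : Ω * ((u * (1 + 2 * la * s) : eis) : ℂ) / ((4 * la : eis) : ℂ) + z =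
        u * (P1 Ω + w * z + Ω * s / 2) := by
      unfold P1
      push_cast
      rw [four_coe, two_coe]
      field_simp
      linear_combination (-(8 * la * z)) * hwu'
    have ht : Tor L (P1 Ω + w * z + Ω * s / 2) := by
      refine ((P1_tor hL).add hL (hz.mul hL w)).add hL ?_
      have := Tor.of hL two_ne s
      rwa [two_coe] at this
    rw [e, Ev_unit hL hu ht]
    field_simp
  have hep : ∀ s : eis, ep (1 + 2 * la * s) = if F4.tr (rho s) = 0 then 1 else -1 := by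
    intro s
    unfold ep
    rw [bt_n1]
  unfold bk
  beta_reduce
  rw [key, key, key, key, hep, hep, hep, hep]
  have t0 : F4.tr (rho (0 : eis)) = 0 := by rw [map_zero]; rfl
  have t1 : F4.tr (rho (1 : eis)) = 0 := by rw [map_one]; rfl
  have t4 : rho omr = F4.w := by
    rw [← ez_omr, rho_ez]
    rfl
  have t2 : F4.tr (rho (omr : eis)) = 1 := by rw [t4]; rfl
  have t3 : F4.tr (rho (1 + omr : eis)) = 1 := by rw [map_add, map_one, t4]; rfl
  rw [t0, t1, t2, t3, if_pos rfl, if_neg one_ne_zero]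
  unfold F1v G1
  rw [Ev_eq hL (z := P1 Ω + w * z + Ω * om ^ 2 / 2)
    (w := P1 Ω + w * z + Ω * ((1 + omr : eis) : ℂ) / 2) (1 + omr)
    (by push_cast; rw [omr_coe, om2_eq]; ring)]
  have z0 : P1 Ω + w * z + Ω * ((0 : eis) : ℂ) / 2 = P1 Ω + w * z := by push_cast; ring
  have z1 : P1 Ω + w * z + Ω * ((1 : eis) : ℂ) / 2 = P1 Ω + w * z + Ω / 2 := by
    push_cast
    ring
  rw [z0, z1, omr_coe]
  ring

/-- the sum over the residue classes modulo `4√-3` -/
theorem sum_ee4 (hψ : HC 1 (sp (4 * la : eis)) ψ) (hL : IsLat L eis Ω)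
    [Fintype (eis ⧸ (sp (4 * la) : Ideal eis))] {z : ℂ}
    (hz : Tor L z) : ∑ y : eis ⧸ (sp (4 * la) : Ideal eis), ee ψ y.out *
      Ev Ω (Ω * y.out / ((4 * la : eis) : ℂ) + z) =
    F1v Ω ((1 : eis) * z) + F1v Ω ((-1 : eis) * z) + F1v Ω ((omr ^ 2 : eis) * z) +
      F1v Ω ((-omr ^ 2 : eis) * z) + F1v Ω ((omr : eis) * z) + F1v Ω ((-omr : eis) * z) := by
  have he := ee_eo lfp qr hψ
  have hper : ∀ x y : eis, x - y ∈ (sp (4 * la) : Ideal eis) →
      ee ψ x * Ev Ω (Ω * x / ((4 * la : eis) : ℂ) + z) =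
        ee ψ y * Ev Ω (Ω * y / ((4 * la : eis) : ℂ) + z) := by
    intro x y hxy
    rw [he.per x y hxy]
    congr 1
    apply Ev_per hL
    have := (div_mem_iff hL f12_ne (x - y)).2 hxy
    convert this using 1
    push_cast
    ring
  rw [sum_f12 (fun y => ee ψ y * Ev Ω (Ω * y / ((4 * la : eis) : ℂ) + z))
    (fun x hx => by rw [ee_ncop4 hψe hpsi hψ hx, zero_mul]) hper]
  have o3 := omr_cube
  rw [bk_ee hψe hpsi hL hz (u := 1) (w := 1) (one_mul 1),
    bk_ee hψe hpsi hL hz (u := -1) (w := -1) (by ring),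
    bk_ee hψe hpsi hL hz (u := omr) (w := omr ^ 2) (by rw [← o3]; ring),
    bk_ee hψe hpsi hL hz (u := -omr) (w := -omr ^ 2) (by rw [← o3]; ring),
    bk_ee hψe hpsi hL hz (u := omr ^ 2) (w := omr) (by rw [← o3]; ring),
    bk_ee hψe hpsi hL hz (u := -omr ^ 2) (w := -omr) (by rw [← o3]; ring)]

end

end Pool.Agent.L0h4.T4
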